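import Pool.Agent.P.MP_ab3ecb_nt.Inv.A.Iface

/-! Step CP of the twist project. -/

namespace Pool.Agent.P.MP_ab3ecb_nt.Inv

open Polynomial NumberField IsDedekindDomain TensorProduct Finset
open scoped Classical

section

variable {R L : Type} [CommRing R] [IsLocalRing R] [Field L] [CharZero L] [Algebra R L]
  {A : Type} [CommRing A] [Module.Free ℤ A] [Module.Finite ℤ A] {r : ℤ} {q : ℕ}
  {e γ α : R ⊗[ℤ] A}

theorem cp_un {z : R} (h : IsUnit z) : algebraMap R L z ≠ 0 := (h.map _).ne_zero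

theorem cp_unitsT (h2 : IsUnit (2 : R))
    (hK : ∀ x y : R, IsUnit x → IsUnit y → sy (algebraMap R L x) (algebraMap R L y) = 1)
    (hd : Dual A r) (hr : IsUnit (r : R)) (hγ : IsUnit γ) (hα : IsUnit α) :
    cp (tm A (algebraMap R L) γ) (tm A (algebraMap R L) α) = 1 := by
  rw [cp, ← map_one (tm A (algebraMap R L)), cf_unit h2 (hd.perf hr) bc_tm hK isUnit_one hα,
    cf_unit h2 (hd.perf hr) bc_tm hK hγ hα, mul_one]

theorem cp_splitT (h2 : IsUnit (2 : R))
    (hK : ∀ x y : R, IsUnit x → IsUnit y → sy (algebraMap R L x) (algebraMap R L y) = 1)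
    (hq : (q : L) ≠ 0) (hd : Dual A r) (hr : IsUnit (r : R)) (he : e * e = e)
    (hγ : IsUnit γ) (h1 : IsUnit (pj e α))
    (h3 : IsUnit (tm A (algebraMap R L) (e + (1 - e) * α))) :
    cp (tm A (algebraMap R L) (pj e q * γ)) (tm A (algebraMap R L) α) =
      sy (q : L) (algebraMap R L (Algebra.norm R (pj e α))) *
      cp (tm A (algebraMap R L) γ) (tm A (algebraMap R L) (e + (1 - e) * α)) := by
  have hs := hd.perf (R := L) (by simpa using hr.map (algebraMap R L))
  have h0 := cp_unitsT h2 hK hd hr hγ h1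
  set Φ := tm A (algebraMap R L) with hΦ
  have he' : Φ e * Φ e = Φ e := by rw [← map_mul, he]
  have k1 : (1 - Φ e) * Φ (pj e α) = 1 - Φ e := by
    simp only [pj, map_add, map_mul, map_sub, map_one]
    linear_combination (1 - Φ α) * he'
  have k2 : Φ e * Φ (e + (1 - e) * α) = Φ e := by
    simp only [map_add, map_mul, map_sub, map_one]
    linear_combination (1 - Φ α) * he'
  have k3 : Φ α = Φ (pj e α) * Φ (e + (1 - e) * α) := by
    rw [← map_mul, pj]
    congr 1
    linear_combination (1 - α) ^ 2 * he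
  have k4 := cf_idem hs he' isUnit_one isUnit_one (h1.map Φ) h3 k1 k2
  have k5 := cf_idem hs he' (((IsUnit.mk0 _ hq).map (algebraMap L _)).mul (hγ.map Φ))
    (hγ.map Φ) (h1.map Φ) h3 k1 k2
  rw [← k3] at k4 k5
  rw [mul_one, mul_one, add_sub_cancel] at k4
  rw [cf_smul hs (hγ.map Φ) (h1.map Φ) hq, map_natCast] at k5
  have k6 := sy_self ((h1.map Φ).map (Algebra.norm L)).ne_zero (h3.map (Algebra.norm L)).ne_zero
  rw [cp] at h0
  rw [cp, cp, k4, show Φ (pj e q * γ) = Φ e * (q * Φ γ) + (1 - Φ e) * Φ γ by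
    simp only [pj, map_add, map_mul, map_sub, map_one, map_natCast]; ring, k5, ← norm_tm,
    mul_mul_mul_comm, k6, mul_one, mul_mul_mul_comm, ← mul_assoc (cf _ 1 _), h0, one_mul]

theorem cp_ramT (h2' : IsUnit (2 : R))
    (hK : ∀ x y : R, IsUnit x → IsUnit y → sy (algebraMap R L x) (algebraMap R L y) = 1)
    (hq : (q : L) ≠ 0) (hd : Dual A r) (hr : IsUnit (r : R)) (he : e * e = e)
    (hγ : IsUnit γ) {l : R ⊗[ℤ] A →ₐ[R] R} {ε : R ⊗[ℤ] A}
    (hε : ∀ z, z * ε = l z • ε) (hl : l ε = 1) (hle : l e = 0)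
    (hα : IsUnit (ε + (1 - ε) * α)) {s : R} (hs : IsUnit s) (hα0 : l α = q * s) :
    IsUnit (pj e α) ∧ cp (tm A (algebraMap R L) (pj e q * γ)) (tm A (algebraMap R L) α) =
      sy (q : L) (algebraMap R L (Algebra.norm R (pj e α))) *
        sy (q : L) (algebraMap R L (l γ)) := by
  have h0 := hε e
  rw [hle, zero_smul] at h0
  have h3 := hε ε
  rw [hl, one_smul] at h3
  have h1 := unit_idem he hα isUnit_one
  have h2 := unit_idem he isUnit_one hα
  rw [show e * (ε + (1 - ε) * α) + (1 - e) * 1 = pj e α by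
    rw [pj]; linear_combination (1 - α) * h0] at h1
  rw [show e * 1 + (1 - e) * (ε + (1 - ε) * α) = ε + (1 - ε) * (e + (1 - e) * α) by
    ring_nf] at h2
  have h4 : l (e + (1 - e) * α) = q * s := by simp [hle, hα0]
  have h5 : algebraMap R L (l (e + (1 - e) * α)) ≠ 0 := by
    rw [h4, map_mul, map_natCast]
    exact mul_ne_zero hq (cp_un hs)
  have h6 : Algebra.norm L (tm A (algebraMap R L) (e + (1 - e) * α)) ≠ 0 := by
    rw [norm_tm, norm_idem hε hl, map_mul]
    exact mul_ne_zero h5 (cp_un (h2.map _))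
  have h7 := unit_idem h3 isUnit_one hγ
  rw [mul_one] at h7
  have k2 := cf_split h2' (hd.perf hr) bc_tm hK l hε hl (γ := 1) (by simp) h2 (by simp) h5 h6
  have k3 := cf_split h2' (hd.perf hr) bc_tm hK l hε hl h7 h2 (cp_un (hγ.map l)) h5 h6
  have k4 : IsUnit (Algebra.trace R _ ε) := by
    obtain ⟨z, hz⟩ := hd.perf hr l.toLinearMap
    have := LinearMap.congr_fun hz ε
    rw [bf_apply, one_mul, hε, map_smul, AlgHom.toLinearMap_apply, hl] at this
    exact IsUnit.of_mul_eq_one_right _ this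
  rw [map_one] at k2
  refine ⟨h1, ?_⟩
  rw [cp_splitT h2' hK hq hd hr he hγ h1 (isUnit_of_norm (IsUnit.mk0 (Algebra.norm L _) h6)), cp,
    k2, k3, map_one, map_one, sy_comm 1, sy_one h5, one_mul, mul_left_comm (_ * _),
    mul_mul_mul_comm, sy_self (cp_un k4) h5, sy_self h5 (mul_ne_zero h5 h6), mul_one, mul_one, h4,
    sy_comm (algebraMap R L (l γ)), map_mul, map_natCast,
    sy_mul' hq (cp_un hs) (cp_un (hγ.map l)), hK s _ hs (hγ.map l), mul_one]

end

theorem p_CP (hSYT : S_SYT) :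
    S_CP := by
  intro q R L k _ _ _ _ _ res T A _ _ _ r hd hr e γ α he hγ
  obtain ⟨-, hK, -, hm, -⟩ := hSYT q R L k res T
  have : Nontrivial R := res.domain_nontrivial
  have : IsLocalRing R := .of_isUnit_or_isUnit_one_sub_self fun a => by
    by_cases h : res a = 0
    · exact .inr ((T.unit _).2 (by simp [h]))
    · exact .inl ((T.unit _).2 h)
  have h2 : IsUnit (2 : R) := (T.unit _).2 (by rw [map_ofNat]; exact T.two)
  have hq : (q : L) ≠ 0 := Nat.cast_ne_zero.2 T.prime.ne_zero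
  refine ⟨fun hα => ⟨cp_unitsT h2 hK hd hr hγ hα, ?_⟩, fun l ε s hε hl hle hα hs h0 => ?_⟩
  · have h1 := unit_idem he hα isUnit_one
    have h3 := unit_idem he isUnit_one hα
    rw [mul_one] at h1 h3
    rw [cp_splitT h2 hK hq hd hr he hγ h1 (h3.map _), cp_unitsT h2 hK hd hr hγ h3, mul_one]
    exact ⟨_, h1.map _, rfl, rfl⟩
  · obtain ⟨h1, h3⟩ := cp_ramT h2 hK hq hd hr he hγ hε hl hle hα hs h0
    rw [h3]
    exact hm _ _ _ _ ⟨_, h1.map _, rfl, rfl⟩ ⟨_, hγ.map l, rfl, rfl⟩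

end Pool.Agent.P.MP_ab3ecb_nt.Inv
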