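import Pool.Agent.P.MP_ab3ecb_nt.Inv.A.Iface

/-! Step CPD of the twist project. -/

namespace Pool.Agent.P.MP_ab3ecb_nt.Inv

open Polynomial NumberField IsDedekindDomain TensorProduct Finset
open scoped Classical

lemma cpd_pc {K : Type} [Field K] [CharZero K] (n : ℕ) (a b : Fin n → K) (ha : ∀ k, a k ≠ 0)
    (hb : ∀ k, b k ≠ 0) : pc n a b * pc n a b = 1 := by
  induction n with
  | zero => simp [pc]
  | succ n ih =>
    rw [pc, mul_mul_mul_comm, mul_mul_mul_comm (sy (a 0) (b 0)), sy_self (ha 0) (hb 0),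
      ih (Fin.tail a) (Fin.tail b) (fun k => ha _) fun k => hb _, one_mul, one_mul]
    exact sy_self (by simp [ha, hb]) (prod_ne_zero_iff.2 fun k _ => by simp [Fin.tail, ha, hb])

lemma cpd_cf {K B : Type} [Field K] [CharZero K] [CommRing B] [Algebra K B] [Module.Finite K B]
    {s : B →ₗ[K] K} (hs : Perf (bf s 1)) {γ α : B} (hγ : IsUnit γ) (hα : IsUnit α) :
    cf s γ α * cf s γ α = 1 := by
  have h2 : IsUnit (2 : K) := IsUnit.mk0 _ two_ne_zero
  obtain ⟨v, hv⟩ := diag h2 _ B _ (bf_symm s γ) (hs.unit hγ) rfl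
  obtain ⟨w, hw⟩ := diag h2 _ B _ (bf_symm s _) (hs.unit (hγ.mul hα)) rfl
  rw [cf, (has_phi s γ α rfl hv hw).1.cc_eq]
  exact cpd_pc _ _ _ (fun k => (hv.2 k).ne_zero) fun k => neg_ne_zero.2 (hw.2 k).ne_zero

theorem p_CPD :
    S_CPD := by
  intro L A _ _ _ _ _ r hd hr e γ α he hγ hα
  have hs := hd.perf (R := L) (IsUnit.mk0 _ (Int.cast_ne_zero.2 hr))
  have he' : (1 - e) * (1 - e) = 1 - e := by linear_combination he
  have h1 := isUnit_pj he hα
  have h2 := isUnit_pj he' hα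
  have k1 : (1 - e) * pj e α = 1 - e := by unfold pj; linear_combination (1 - α) * he
  have k2 : e * pj (1 - e) α = e := by unfold pj; linear_combination (1 - α) * he
  have k3 : pj e α * pj (1 - e) α = α := by unfold pj; linear_combination -(1 - α) ^ 2 * he
  have k4 := cf_idem hs he isUnit_one isUnit_one h1 h2 k1 k2
  have k5 := cf_idem hs he hγ isUnit_one h1 h2 k1 k2
  have k6 := cf_idem hs he hγ isUnit_one h1 isUnit_one k1 (mul_one e)
  rw [k3, mul_one, mul_one, add_sub_cancel] at k4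
  rw [k3, mul_one] at k5
  rw [mul_one, mul_one, map_one, cf_of_isSquare hs isUnit_one isUnit_one IsSquare.one,
    sy_one (h1.map (Algebra.norm L)).ne_zero, mul_one, mul_one] at k6
  rw [cp, cp, pj, k4, k5, k6, mul_mul_mul_comm,
    sy_self (h1.map (Algebra.norm L)).ne_zero (h2.map (Algebra.norm L)).ne_zero, mul_one,
    mul_mul_mul_comm, cpd_cf hs isUnit_one h2, mul_one]

end Pool.Agent.P.MP_ab3ecb_nt.Inv
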