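import Pool.Agent.P.MP_ab3ecb_nt.Inv.A.Iface

/-! Step EXE of the twist project. -/

namespace Pool.Agent.P.MP_ab3ecb_nt.Inv

open Polynomial NumberField IsDedekindDomain TensorProduct Finset
open scoped Classical

section ring

variable {O B : Type} [CommRing O] [CommRing B] {e e' : B}

lemma exe_eval {f g : O →+* B} (h : ∀ z, e * f z = e * g z) (x : B) (P : O[X]) :
    e * P.eval₂ f x = e * P.eval₂ g x := by
  induction P using Polynomial.induction_on' with
  | add p q hp hq => simp only [eval₂_add, mul_add, hp, hq]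
  | monomial n a => rw [eval₂_monomial, eval₂_monomial, ← mul_assoc, h, mul_assoc]

lemma exe_tri (h1 : e' * e' = e') (h2 : e * e = e) (h3 : e' * e = e') (a b c a' b' c' : B) :
    (e' * a + (e - e') * b + (1 - e) * c) * (e' * a' + (e - e') * b' + (1 - e) * c') =
      e' * (a * a') + (e - e') * (b * b') + (1 - e) * (c * c') := by
  linear_combination (a * a') * h1 + (a * b' + b * a') * (h3 - h1) - (a * c' + c * a') * h3 +
    b * b' * (h2 - 2 * h3 + h1) + (b * c' + c * b') * (h3 - h2) + c * c' * h2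

lemma exe_rel (h1 : e' * e' = e') (h2 : e * e = e) (h3 : e' * e = e') {q d x y n : B}
    (h : e * n ^ 2 = e * (q * d * (x * y))) :
    Rel (pj e' q * pj e (e' * (d * y) + (1 - e') * x)) (pj e x)
      (e * (q * d * y) + (1 - e) * n ^ 2) := by
  have k1 : pj e' q * pj e (e' * (d * y) + (1 - e') * x) =
      e' * (q * (d * y)) + (e - e') * (1 * x) + (1 - e) * (1 * 1) := by
    rw [← exe_tri h1 h2 h3]
    unfold pj
    congr 1
    · ring
    · linear_combination (d * y - x) * h3
  have k2 : pj e x = e' * x + (e - e') * x + (1 - e) * 1 := by unfold pj; ring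
  have k3 : e * (q * d * y) + (1 - e) * n ^ 2 =
      e' * (q * d * y) + (e - e') * (q * d * y) + (1 - e) * n ^ 2 := by ring
  rw [k1, k2, k3]
  refine ⟨⟨e' * n + (e - e') * x + (1 - e) * 1, ?_⟩,
    ⟨e' * (q * d * y) + (e - e') * n + (1 - e) * n, ?_⟩⟩ <;>
    rw [exe_tri h1 h2 h3, exe_tri h1 h2 h3]
  · linear_combination (-e') * h + (n ^ 2 - q * d * (x * y)) * h3
  · linear_combination (e' - 1) * h - (n ^ 2 - q * d * (x * y)) * h3

lemma exe_int (f : O →+* B) (x : B) (P : ℤ[X]) :
    (P.map (Int.castRingHom O)).eval₂ f x = aeval x P := by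
  rw [eval₂_map, aeval_def, RingHom.ext_int (f.comp _) (algebraMap ℤ B)]

end ring

section tame

variable {q : ℕ} {R L k : Type} [CommRing R] [Field L] [CharZero L] [Algebra R L] [Field k]
  {res : R →+* k}

omit [CharZero L] in
lemma exe_local (T : Tame q L res) : IsLocalRing R :=
  haveI := res.domain_nontrivial
  IsLocalRing.of_isUnit_or_isUnit_one_sub_self fun a => by
    rw [T.unit, T.unit, map_sub, map_one]
    by_cases h : res a = 0
    · exact Or.inr (by simp [h])
    · exact Or.inl h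

lemma exe_root (T : Tame q L res) {O : Type} [CommRing O] {ρ : O →+* R} {Pz : ℤ[X]}
    {F0 F1 : O[X]} {M : ℕ} (hP : Pol Pz F0 F1 M) (hM : IsUnit ((M : ℤ) : R)) {a η D : R}
    (hD : IsUnit D) (hη : η ^ 2 = q * D * F0.eval₂ ρ a) :
    ∃ w, F0.eval₂ ρ (a + q * w) = 0 ∧ aeval (a + q * w) Pz = 0 := by
  have hq : res q = 0 := (T.ker _).2 dvd_rfl
  have h0 : res (F0.eval₂ ρ a) = 0 := by
    have h1 : res η = 0 := by
      have := congrArg res hη
      rw [map_pow, map_mul, map_mul, hq, zero_mul, zero_mul] at this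
      exact pow_eq_zero_iff two_ne_zero |>.1 this
    obtain ⟨η', rfl⟩ := (T.ker _).1 h1
    have h2 : (q : R) * η' ^ 2 = D * F0.eval₂ ρ a := T.inj <| by
      have h3 := congrArg (algebraMap R L) hη
      have h4 : (q : L) ≠ 0 := Nat.cast_ne_zero.2 T.prime.ne_zero
      simp only [map_mul, map_pow, map_natCast] at h3 ⊢
      exact mul_left_cancel₀ h4 (by linear_combination h3)
    have h3 := congrArg res h2
    rw [map_mul, map_mul, hq, zero_mul] at h3
    exact (mul_eq_zero.1 h3.symm).resolve_left ((T.unit _).1 hD)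
  have hm : ∀ x : R, aeval x Pz = F0.eval₂ ρ x * F1.eval₂ ρ x := fun x => by
    rw [← eval₂_mul, hP.mul, exe_int]
  have hd : ∀ x : R, aeval x (derivative Pz) = (derivative F0).eval₂ ρ x * F1.eval₂ ρ x +
      F0.eval₂ ρ x * (derivative F1).eval₂ ρ x := fun x => by
    rw [← eval₂_mul, ← eval₂_mul, ← eval₂_add, ← derivative_mul, hP.mul, derivative_map, exe_int]
  have hs : ∀ x : R, res (aeval x Pz) = 0 → res (aeval x (derivative Pz)) ≠ 0 := fun x h1 h2 => by
    obtain ⟨u, v, h⟩ := hP.sep
    have := congrArg (fun P => res (aeval x P)) h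
    simp only [map_add, map_mul, h1, h2, mul_zero, add_zero, eq_intCast] at this
    rw [map_intCast] at this
    exact (T.unit _).1 hM this.symm
  have he : ∀ (x : R) (P : ℤ[X]), (P.map (Int.castRingHom R)).eval x = aeval x P := fun x P => by
    rw [← exe_int (RingHom.id R), eval₂_id]
  have h1 : res (aeval a Pz) = 0 := by rw [hm, map_mul, h0, zero_mul]
  obtain ⟨b, b1, b2⟩ := T.hensel (Pz.map (Int.castRingHom R)) a (hP.mF.map _) (by rwa [he])
    (by rw [derivative_map, he]; exact hs a h1)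
  rw [he] at b1
  obtain ⟨w, hw⟩ := (T.ker (b - a)).1 (by rw [map_sub, b2, sub_self])
  have h2 : res (F0.eval₂ ρ b) = 0 := by rw [hom_eval₂, b2, ← hom_eval₂, h0]
  have h3 : IsUnit (F1.eval₂ ρ b) := (T.unit _).2 fun h => hs b (by rw [b1, map_zero])
    (by rw [hd, map_add, map_mul, map_mul, h, h2, mul_zero, zero_mul, add_zero])
  refine ⟨w, ?_⟩
  rw [← hw, add_sub_cancel]
  exact ⟨h3.mul_right_cancel (by rw [← hm, b1, zero_mul]), b1⟩

end tame

theorem p_EXE :
    S_EXE := by
  intro q R L k _ _ _ _ _ res T O A _ _ _ _ _ ρ i Pz F0 F1 M G G' hP hM hS hG e he a η D hD hη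
  have := exe_local T
  obtain ⟨w, w1, w2⟩ := exe_root T hP hM hD hη
  have hq : res q = 0 := (T.ker _).2 dvd_rfl
  have hq' : ¬ IsUnit (q : R) := fun h => (T.unit _).1 h hq
  have hM' : IsUnit ((M : ℤ) : R ⊗[ℤ] A) := by
    simpa using hM.map (algebraMap R (R ⊗[ℤ] A))
  obtain ⟨U, V, h1⟩ := hS.exists_isE
  obtain ⟨e', e1, e2, -⟩ := h1 (R ⊗[ℤ] A) (inc A _) (algebraMap R _ (a + q * w)) hM'
    (by rw [← map_aeval_int, w2, map_zero])
  have key : ∀ (P : A[X]) (ε : R ⊗[ℤ] A), IsUnit (pj ε (evT P (a + q * w))) →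
      IsUnit (pj ε (evT P a)) := fun P ε h => by
    obtain ⟨c, hc⟩ := sub_dvd_eval_sub (algebraMap R (R ⊗[ℤ] A) (a + q * w))
      (algebraMap R _ a) (P.map (inc A _))
    rw [eval_map, eval_map, ← map_sub, add_sub_cancel_left, map_mul] at hc
    obtain ⟨s, hs⟩ := h.exists_right_inv
    have := h.mul (isUnit_one_add hq' (-(ε * algebraMap R _ w * c * s)))
    unfold pj at hs this ⊢
    rwa [show _ * (1 + _) = ε * evT P a + (1 - ε) by
      linear_combination ε * hc - (algebraMap R _ q * ε * algebraMap R _ w * c) * hs] at this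
  have u1 : IsUnit (pj e' (evT (G' * F1.map i) (a + q * w))) := by
    rw [pj, e1.2.1]; exact e1.2.2
  have u2 : IsUnit (pj (1 - e') (evT G (a + q * w))) := by
    rw [pj, e2.2.1]; exact e2.2.2
  have k1 := key _ _ u1
  have k2 := key _ _ u2
  have k3 : IsUnit (pj e' (evT G' a)) := by
    rw [evT, eval₂_mul, pj_mul e1.1] at k1
    exact isUnit_of_mul_isUnit_left k1
  have hF : ∀ x : R, F0.eval₂ ((inc A R).comp i) (algebraMap R _ x) = evT G x * evT G' x :=
    fun x => by rw [← eval₂_map, ← hG, eval₂_mul]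
  have hee : e' * e = e' := he.mul_eq fun z => by
    obtain ⟨P, c, hc⟩ := hP.gen z
    have c1 := congrArg (eval₂ ((algebraMap R (R ⊗[ℤ] A)).comp ρ) (algebraMap R _ (a + q * w))) hc
    have c2 := congrArg (eval₂ ((inc A R).comp i) (algebraMap R _ (a + q * w))) hc
    rw [eval₂_sub, exe_int, eval₂_C, eval₂_mul, map_mul, map_natCast] at c1 c2
    rw [← hom_eval₂ F0, w1, map_zero, zero_mul] at c1
    rw [hF] at c2
    refine hM'.mul_left_cancel ?_
    rw [Int.cast_natCast]
    linear_combination e' * c2 - e' * c1 - (evT G' (a + q * w) *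
      c.eval₂ ((inc A R).comp i) (algebraMap R _ (a + q * w))) * e2.2.1
  have k4 := unit_idem e1.1 ((hD.map (algebraMap R _)).mul k3) k2
  rw [show e' * _ + (1 - e') * _ = e' * (algebraMap R _ D * evT G' a) + (1 - e') * evT G a by
    unfold pj
    linear_combination (algebraMap R _ D * (evT G' a - 1) + evT G a - 1) * e1.1] at k4
  have k5 := e1.map (tm A res)
  rw [tm_eval, map_add, map_mul, hq, zero_mul, add_zero] at k5
  refine ⟨e', _, e1.1, isUnit_pj he.1 k4, hee, ?_, k5, ?_, fun φ hφ h0 => ?_⟩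
  · unfold pj
    linear_combination (e' * (algebraMap R _ D * evT G' a) + (1 - e') * evT G a - 1) * he.1
  · rw [RelD, map_mul, map_natCast]
    refine exe_rel e1.1 he.1 hee ?_
    rw [← map_pow, hη, map_mul, map_mul, map_natCast, hom_eval₂, ← hF, mul_left_comm,
      exe_eval he.2.1, mul_left_comm]
  · have m1 := k1.map (lft φ)
    have m2 := congrArg (lft φ) e1.1
    rw [pj, T.unit, map_add, map_mul, lft_eval, map_add, map_mul, h0, mul_zero, zero_add,
      ← T.unit, map_sub, map_one] at m1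
    rw [map_mul] at m2
    have m3 : lft φ e' = 0 := m1.mul_right_cancel (by linear_combination -m2)
    have m4 := he.map (lft φ).toRingHom
    rw [show (lft φ).toRingHom.comp ((algebraMap R _).comp ρ) = ρ from
        RingHom.ext fun z => (lft φ).commutes _,
      show (lft φ).toRingHom.comp ((inc A R).comp i) = ρ from
        hφ ▸ RingHom.ext fun z => lft_inc φ _] at m4
    have m5 : lft φ e = 1 := m4.eq_one
    refine ⟨m3, ?_⟩
    simp only [pj, map_add, map_mul, map_sub, map_one, m3, m5, lft_eval]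
    ring

end Pool.Agent.P.MP_ab3ecb_nt.Inv
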