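import Pool.Agent.P.MP_ab3ecb_nt.Inv.Diag

/-!
Statements: local invariants and the conditions forced by a point of the Brauer-Manin set.
-/

namespace Pool.Agent.P.MP_ab3ecb_nt.Inv

open Polynomial NumberField IsDedekindDomain TensorProduct Finset
open scoped Classical

-- deps:
def S_TAME : Prop := ∀ (K : Type) [Field K] [NumberField K] (M q : ℕ) (v : Pl K) (k : Type)
  [Field k] (l : 𝓞 K →+* k), Dual (𝓞 K) M → 2 ∣ M → (M : 𝓞 K) ∉ v.asIdeal → q.Prime →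
  (q : 𝓞 K) ∈ v.asIdeal → Function.Surjective l → RingHom.ker l = v.asIdeal →
    ∃ res : Ov v →+* k, TameV v q l res

-- deps:
def S_INVZ : Prop := ∀ (K : Type) [Field K] [NumberField K] (v : Pl K) (B : Type) [Ring B]
  [Algebra (Kv v) B], cl (Kv v) B = 1 → InvV v B 0

-- deps: INVZ
def S_SGINV : Prop := ∀ (K : Type) [Field K] [NumberField K] (v : Pl K) (q : ℕ) (k : Type)
  [Field k] (l : 𝓞 K →+* k) (res : Ov v →+* k), TameV v q l res → ∀ (x : Br (Kv v)) (s : ℤ),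
  SgT q res x s → (s = 1 ∨ s = -1) ∧ ∀ (B : Type) [Ring B] [Algebra (Kv v) B], cl (Kv v) B = x →
    InvV v B (if s = -1 then ((1 / 2 : ℚ) : AddCircle (1 : ℚ)) else 0)

-- deps:
def S_PADIC : Prop := ∀ (K : Type) [Field K] [NumberField K] (v : Pl K) (p : ℕ) [Fact p.Prime],
  (p : 𝓞 K) ∈ v.asIdeal → Nonempty (ℤ_[p] →+* Ov v) ∧ Nonempty (ℚ_[p] →+* Kv v)

-- deps:
def S_SYT : Prop := ∀ (q : ℕ) (R L k : Type) [CommRing R] [Field L] [CharZero L] [Algebra R L]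
  [Field k] (res : R →+* k), Tame q L res →
  (∀ x : R, IsUnit x → IsSquare (res x) → IsSquare x) ∧
  (∀ x y : R, IsUnit x → IsUnit y → sy (algebraMap R L x) (algebraMap R L y) = 1) ∧
  SgT q res (1 : Br L) 1 ∧
  (∀ (x y : Br L) (s t : ℤ), SgT q res x s → SgT q res y t → SgT q res (x * y) (s * t)) ∧
  ∀ a b : k, chk (a * b) = chk a * chk b

-- deps: SYT
def S_CP : Prop := ∀ (q : ℕ) (R L k : Type) [CommRing R] [Field L] [CharZero L] [Algebra R L]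
  [Field k] (res : R →+* k), Tame q L res → ∀ (A : Type) [CommRing A] [Module.Free ℤ A]
  [Module.Finite ℤ A] (r : ℤ), Dual A r → IsUnit (r : R) → ∀ e γ α : R ⊗[ℤ] A, e * e = e →
  IsUnit γ →
  (IsUnit α → cp (tm A (algebraMap R L) γ) (tm A (algebraMap R L) α) = 1 ∧
    SgT q res (cp (tm A (algebraMap R L) (pj e q * γ)) (tm A (algebraMap R L) α))
      (chk (res (Algebra.norm R (pj e α))))) ∧
  ∀ (l : R ⊗[ℤ] A →ₐ[R] R) (ε : R ⊗[ℤ] A) (s : R), (∀ z, z * ε = l z • ε) → l ε = 1 → l e = 0 →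
    IsUnit (ε + (1 - ε) * α) → IsUnit s → l α = q * s →
    SgT q res (cp (tm A (algebraMap R L) (pj e q * γ)) (tm A (algebraMap R L) α))
      (chk (res (Algebra.norm R (pj e α))) * chk (res (l γ)))

-- deps:
def S_CPD : Prop := ∀ (L A : Type) [Field L] [CharZero L] [CommRing A] [Module.Free ℤ A]
  [Module.Finite ℤ A] (r : ℤ), Dual A r → r ≠ 0 → ∀ e γ α : L ⊗[ℤ] A, e * e = e → IsUnit γ →
  IsUnit α → cp (pj e γ) α = cp (pj e γ) (pj e α)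

-- deps:
def S_LIFT : Prop := ∀ (A : Type) [CommRing A] [IsDomain A] [Module.Free ℤ A] [Module.Finite ℤ A],
  ∃ C : ℕ, C ≠ 0 ∧ ∀ (p : ℕ) [Fact p.Prime], ¬ p ∣ C → ∀ lb : A →+* ZMod p,
    ∃ φ : A →+* ℤ_[p], PadicInt.toZMod.comp φ = lb

-- deps: CP PADIC
def S_LF : Prop := ∀ (K : Type) [Field K] [NumberField K] (M : ℕ) (A : Type) [CommRing A]
  [Module.Free ℤ A] [Module.Finite ℤ A] [Nontrivial A] (i : 𝓞 K →+* A), Dual (𝓞 K) M → Dual A M →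
  ∀ (p : ℕ) (lb : A →+* ZMod p) (π : A), p.Prime → ¬ p ∣ M → Lf M p lb π → ∀ v : Pl K,
  (M : 𝓞 K) ∉ v.asIdeal →
  (RingHom.ker (lb.comp i) ≠ v.asIdeal → ∀ e : Ov v ⊗[ℤ] A,
    IsD ((algebraMap (Ov v) _).comp (algebraMap (𝓞 K) (Ov v))) ((inc A (Ov v)).comp i) e →
      IsUnit (pj e (inc A (Ov v) π))) ∧
  ∀ [Fact p.Prime] (res : Ov v →+* ZMod p), TameV v p (lb.comp i) res →
    ∃ φ : A →+* Ov v, res.comp φ = lb ∧ φ.comp i = algebraMap (𝓞 K) (Ov v) ∧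
      ∀ β : A, ¬ (p : ℤ) ∣ Algebra.norm ℤ β → ∀ e γ : Ov v ⊗[ℤ] A, e * e = e → IsUnit γ →
        lft φ e = 0 → SgT p res (cp (tm A (algebraMap (Ov v) (Kv v)) (pj e p * γ))
          (inc A (Kv v) (π * β))) (chk (res (Algebra.norm (Ov v) (pj e (inc A _ (π * β))))) *
            chk (res (lft φ γ)))

-- deps: INVZ PADIC
def S_PF : Prop := ∀ (K E : Type) [Field K] [NumberField K] [Field E] [CharZero E] (ι : K →+* E)
  (P : KAdelic ι), KInBM P → ∀ (A : Type) [CommRing A] [Module.Free ℤ A] [Module.Finite ℤ A]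
  [Nontrivial A] (γ : E ⊗[ℤ] A) (α : A) (M : ℕ), M ≠ 0 → Dual A M → IsUnit γ →
  Algebra.norm ℤ α ≠ 0 → Bad M α →
  (∀ O : ValuationSubring E, (∀ q : ℚ, (q : E) ∈ O) →
    ∃ u : O ⊗[ℤ] A, IsUnit u ∧ IsSquare (γ * tm A O.subtype u)) →
  ∀ (S : Finset (Pl K)) (sgn : Pl K → ℤ), (∀ v ∈ S, (M : 𝓞 K) ∉ v.asIdeal) →
  (∀ v : Pl K, (M : 𝓞 K) ∉ v.asIdeal →
    LocK γ α v (P.fin v).toPt (if v ∈ S then sgn v else 1)) → ∏ v ∈ S, sgn v = 1

-- deps: TAME SGINV INVZ SYT CP CPD LF PF PADIC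
def S_RECIP : Prop := ∀ (K E : Type) [Field K] [NumberField K] [Field E] [CharZero E]
  (ι : K →+* E) (P : KAdelic ι), KInBM P → ∀ (Pz : ℤ[X]) (F0 F1 : (𝓞 K)[X]) (M : ℕ),
  Pol Pz F0 F1 M → ∀ (A A' : Type) [CommRing A] [Module.Free ℤ A] [Module.Finite ℤ A]
  [Nontrivial A] [CommRing A'] [Module.Free ℤ A'] [Module.Finite ℤ A'] [Nontrivial A']
  (i : 𝓞 K →+* A) (i' : 𝓞 K →+* A') (G' H' : A'[X]) (θ : A), Dual A M → Dual A' M →
  Spl Pz M G' H' → G' ∣ F0.map i' → F0.eval₂ i θ = 0 → ∀ q p p' : ℕ, q.Prime → p.Prime →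
  p'.Prime → ¬ q ∣ M → ¬ p ∣ M → ¬ p' ∣ M → p ≠ q → p' ≠ q → p ≠ p' →
  ∀ (l : A' →+* ZMod q) (ϖ : A') (lb : A →+* ZMod p) (lb' : A →+* ZMod p') (π π' : A),
    Lf M q l ϖ → Lf M p lb π → Lf M p' lb' π' → Bad M (π * π') →
    rv H' θ l ϖ lb π * rv H' θ l ϖ lb' π' = 1

/-- The common square class of `G(x)` and of `D G'(x)` on the diagonal part `e`. -/
def RelD {R A : Type} [CommRing R] [CommRing A] [Module.Free ℤ A] [Module.Finite ℤ A]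
    (e u : R ⊗[ℤ] A) (G G' : A[X]) (x D η : R) : Prop :=
  Rel u (pj e (evT G x)) (e * (algebraMap R _ D * evT G' x) + (1 - e) * algebraMap R _ η ^ 2)

-- deps:
def S_EXE : Prop := ∀ (q : ℕ) (R L k : Type) [CommRing R] [Field L] [CharZero L] [Algebra R L]
  [Field k] (res : R →+* k), Tame q L res → ∀ (O A : Type) [CommRing O] [CommRing A]
  [Module.Free ℤ A] [Module.Finite ℤ A] [Nontrivial A] (ρ : O →+* R) (i : O →+* A) (Pz : ℤ[X])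
  (F0 F1 : O[X]) (M : ℕ) (G G' : A[X]), Pol Pz F0 F1 M → IsUnit ((M : ℤ) : R) →
  Spl Pz M G (G' * F1.map i) → G * G' = F0.map i → ∀ e : R ⊗[ℤ] A,
  IsD ((algebraMap R _).comp ρ) ((inc A R).comp i) e → ∀ a η D : R, IsUnit D →
  η ^ 2 = q * D * F0.eval₂ ρ a → ∃ e' u : R ⊗[ℤ] A, e' * e' = e' ∧ IsUnit u ∧
    e' * e = e' ∧ pj e u = u ∧ IsE (tm A res e') (evT (G' * F1.map i) (res a)) ∧
    RelD e (pj e' q * u) G G' a (q * D) η ∧
    ∀ φ : A →+* R, φ.comp i = ρ → res ((G' * F1.map i).eval₂ φ a) = 0 →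
      lft φ e' = 0 ∧ lft φ u = G.eval₂ φ a

-- deps: TAME SGINV INVZ SYT CP CPD LF PF EXE
def S_TEST : Prop := ∀ (K F : Type) [Field K] [NumberField K] [Field F] (ι : K →+* F) (f x : F)
  (Pz : ℤ[X]) (F0 F1 : (𝓞 K)[X]) (M : ℕ) (d : K), f ≠ 0 → aeval x Pz ≠ 0 → d ≠ 0 →
  Pol Pz F0 F1 M → Cert0 (ι.comp (algebraMap (𝓞 K) K)) f x F0 M → BMS ι f d →
  ∃ a : Pl K → 𝓞 K, (∀ v : Pl K, (M : 𝓞 K) ∉ v.asIdeal → Od v d → F0.eval (a v) ∈ v.asIdeal) ∧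
    ∀ (A : Type) [CommRing A] [Module.Free ℤ A] [Module.Finite ℤ A] [Nontrivial A]
      (i : 𝓞 K →+* A) (G G' : A[X]) (γ : F ⊗[ℤ] A) (V : Set (A × A)), Dual A M →
      Spl Pz M G (G' * F1.map i) → G * G' = F0.map i →
      Cert (ι.comp (algebraMap (𝓞 K) K)) f x F0 F1 M i G γ V → ∀ s J, Dec M d s J →
      ∀ z ∈ s, ∀ (lb : A →+* ZMod z.1.1) (π θ n : A), Lf M z.1.1 lb π → lb.comp i = z.2 →
        (G' * F1.map i).eval₂ lb (z.2 (a z.pl)) = 0 → (θ, n) ∈ V → lb θ = z.2 (a z.pl) →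
        tvK (G' * F1.map i) s J a z lb π n * tvK (G' * F1.map i) s J a z lb π n = 1 ∧
        ∀ z' ∈ s, ∀ (lb' : A →+* ZMod z'.1.1) (π' θ' n' : A), Lf M z'.1.1 lb' π' →
          lb'.comp i = z'.2 → (G' * F1.map i).eval₂ lb' (z'.2 (a z'.pl)) = 0 → (θ', n') ∈ V →
          lb' θ' = z'.2 (a z'.pl) → z ≠ z' → Bad M (π * π') →
          tvK (G' * F1.map i) s J a z lb π n * tvK (G' * F1.map i) s J a z' lb' π' n' = 1

end Pool.Agent.P.MP_ab3ecb_nt.Inv
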