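import Pool.Agent.P.MP_ab3ecb_nt.Inv.A.Iface

/-! Step INVZ of the twist project. -/

namespace Pool.Agent.P.MP_ab3ecb_nt.Inv

open Polynomial NumberField IsDedekindDomain TensorProduct Finset
open scoped Classical

theorem p_INVZ :
    S_INVZ := by
  intro K _ _ v B _ _ h
  refine ⟨Kv v, _, _, 1, 1, cl_eq.mp h, ⟨0, 1, X, 0, natDegree_X, by simp, ?_, monic_X, ?_,
    by simp, by simp, ?_, one_ne_zero, by simp⟩, by simp⟩
  · exact eq_top_iff.mpr fun x _ => Subalgebra.algebraMap_mem _ x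
  · rw [map_X]
    exact irreducible_X
  · rw [zero_pow (Ideal.absNorm_eq_zero_iff.not.2 v.ne_bot)]
    simp

end Pool.Agent.P.MP_ab3ecb_nt.Inv
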