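import Pool.Agent.P.MP_ab3ecb_nt.Inv.A.Iface

/-! Step LF of the twist project. -/

namespace Pool.Agent.P.MP_ab3ecb_nt.Inv

open Polynomial NumberField IsDedekindDomain TensorProduct Finset
open scoped Classical

theorem lf_unit {K : Type} [Field K] [NumberField K] (v : Pl K) (a : 𝓞 K) :
    IsUnit (algebraMap (𝓞 K) (Ov v) a) ↔ a ∉ v.asIdeal := by
  rw [HeightOneSpectrum.adicCompletionIntegers.isUnit_iff_valued_eq_one,
    HeightOneSpectrum.algebraMap_adicCompletionIntegers_apply,
    HeightOneSpectrum.valuedAdicCompletion_eq_valuation',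
    HeightOneSpectrum.valuation_eq_one_iff_notMem]

theorem lf_cancel {K : Type} [Field K] [NumberField K] (v : Pl K) {p : ℕ} (hp : p.Prime)
    (x y : Ov v) (h : p * x = p * y) : x = y := by
  refine mul_left_cancel₀ (fun h0 => ?_) h
  have h1 : algebraMap (𝓞 K) (Ov v) (p : 𝓞 K) = 0 := by rw [map_natCast, h0]
  rw [FaithfulSMul.algebraMap_eq_zero_iff, Nat.cast_eq_zero] at h1
  exact hp.ne_zero h1

theorem lf_orth {R A : Type} [CommRing R] [CommRing A] [Module.Free ℤ A]
    [Module.Finite ℤ A] [Nontrivial A] {φ : A →+* R} {ε e : R ⊗[ℤ] A}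
    (k1 : ∀ z, z * ε = lft φ z • ε) {a : R} {b : A} (he : e * algebraMap R _ a = e * inc A R b)
    (hu : IsUnit (φ b - a)) : e * ε = 0 := by
  refine (hu.map (algebraMap R (R ⊗[ℤ] A))).mul_left_cancel ?_
  have e1 := (k1 (inc A R b)).trans (Algebra.smul_def (R := R) (A := R ⊗[ℤ] A) _ _)
  rw [lft_inc] at e1
  rw [map_sub]
  linear_combination -e * e1 - ε * he

theorem p_LF (hCP : S_CP) (hPADIC : S_PADIC) :
    S_LF := by
  intro K _ _ M A _ _ _ _ i hdK hd p lb π hp _ hL v hMv
  have hr : IsUnit (((M : ℕ) : ℤ) : Ov v) := by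
    have := (lf_unit v _).2 hMv
    rwa [map_natCast, ← Int.cast_natCast] at this
  obtain ⟨⟨m, h1, h2⟩, h3, h4⟩ := hL
  have hm : IsUnit ((m : ℤ) : Ov v) :=
    isUnit_of_dvd_unit (map_dvd (Int.castRingHom (Ov v)) h1) hr
  refine ⟨fun hne e he => ?_, fun res hT => ?_⟩
  · by_cases hpv : (p : 𝓞 K) ∈ v.asIdeal
    · have : Fact p.Prime := ⟨hp⟩
      obtain ⟨⟨c⟩, -⟩ := hPADIC K v p hpv
      obtain ⟨φ0, rfl⟩ := h4
      obtain ⟨s, hs⟩ : (p : ℤ_[p]) ∣ φ0 π := by
        rw [← Ideal.mem_span_singleton, ← PadicInt.maximalIdeal_eq_span_p, ← PadicInt.ker_toZMod,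
          RingHom.mem_ker]
        exact h3
      obtain ⟨ε, k1, -, k3, -⟩ := exists_eps hd hr (lf_cancel v hp) (c.comp φ0) hm h2
        (s := c s) (by rw [RingHom.comp_apply, hs, map_mul, map_natCast])
      obtain ⟨z, z1, z2⟩ := SetLike.not_le_iff_exists.1 fun hle : v.asIdeal ≤ _ =>
        hne (v.isMaximal.eq_of_le (RingHom.ker_ne_top _) hle).symm
      have z3 : IsUnit (c.comp φ0 (i z)) := ((isUnit_iff_toZMod _).2 z2).map c
      have z4 : IsUnit (c.comp φ0 (i z) - algebraMap (𝓞 K) (Ov v) z) :=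
        (IsLocalRing.isUnit_or_isUnit_of_isUnit_add (by rwa [sub_add_cancel])).resolve_right
          fun h => (lf_unit v z).1 h z1
      have z5 : e * ε = 0 := lf_orth k1 (he.2.1 z) z4
      have z6 : pj e (inc A (Ov v) π) = pj e (ε + (1 - ε) * inc A (Ov v) π) := by
        unfold pj
        linear_combination (inc A (Ov v) π - 1) * z5
      rw [z6]
      exact isUnit_pj he.1 k3
    · refine isUnit_pj he.1 (isUnit_inc ?_)
      have := (lf_unit v _).2 hpv
      rw [map_natCast] at this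
      rw [h2, Int.cast_mul, Int.cast_natCast]
      exact this.mul hm
  · have hpv : (p : 𝓞 K) ∈ v.asIdeal := by
      by_contra h
      have := (hT.unit _).1 ((lf_unit v _).2 h)
      rw [map_natCast, map_natCast, ZMod.natCast_self] at this
      exact this rfl
    obtain ⟨⟨c⟩, -⟩ := hPADIC K v p hpv
    obtain ⟨φ0, rfl⟩ := h4
    have hc : ∀ x, res (c x) = PadicInt.toZMod x := fun x => by
      have h5 := PadicInt.toZMod_spec x
      rw [PadicInt.maximalIdeal_eq_span_p, Ideal.mem_span_singleton] at h5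
      obtain ⟨y, hy⟩ := h5
      have h6 := congrArg (fun t => res (c t)) hy
      simp only [map_sub, map_mul, map_natCast, ZMod.natCast_self, zero_mul] at h6
      rw [sub_eq_zero.1 h6, ZMod.cast_eq_val, map_natCast, map_natCast, ZMod.natCast_zmod_val]
    refine ⟨c.comp φ0, RingHom.ext fun a => hc _, eq_of_local hdK hr fun z hz => ?_,
      fun β hβ e γ he hγ h5 => ?_⟩
    · refine (hT.unit _).1 hz ?_
      rw [map_sub, hT.comp, sub_eq_zero]
      exact hc _
    · obtain ⟨s, hs⟩ : (p : Ov v) ∣ c.comp φ0 (π * β) := by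
        rw [← hT.ker, map_mul, map_mul, RingHom.comp_apply, hc, ← RingHom.comp_apply, h3, zero_mul]
      obtain ⟨ε, k1, k2, k3, k4⟩ := exists_eps hd hr (lf_cancel v hp) (c.comp φ0)
        (m := m * Algebra.norm ℤ β) (by
          rw [Int.cast_mul]
          refine hm.mul ((hT.unit _).2 ?_)
          rw [map_intCast]
          exact mt (ZMod.intCast_zmod_eq_zero_iff_dvd _ p).mp hβ)
        (by rw [map_mul, h2, mul_assoc]) hs
      have : CharZero (Kv v) := charZero_of_injective_algebraMap (algebraMap K (Kv v)).injective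
      rw [← tm_inc (algebraMap (Ov v) (Kv v))]
      exact (hCP p (Ov v) (Kv v) (ZMod p) res hT.toTame A M hd hr e γ _ he hγ).2 (lft (c.comp φ0))
        ε s k1 k2 h5 k3 k4 ((lft_inc _ _).trans hs)

end Pool.Agent.P.MP_ab3ecb_nt.Inv
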