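import Pool.Agent.P.MP_ab3ecb_nt.Inv.A.Iface

/-! Step LIFT of the twist project. -/

namespace Pool.Agent.P.MP_ab3ecb_nt.Inv

open Polynomial NumberField IsDedekindDomain TensorProduct Finset
open scoped Classical

/-- An order contains a monogenic order of finite index. -/
lemma lift_gen (A : Type) [CommRing A] [IsDomain A] [Module.Free ℤ A] [Module.Finite ℤ A] :
    ∃ (β : A) (N r : ℤ), N ≠ 0 ∧ r ≠ 0 ∧ (∀ a : A, ∃ q : ℤ[X], aeval β q = N * a) ∧
      ∃ u v : ℤ[X], u * minpoly ℤ β + v * derivative (minpoly ℤ β) = C r := by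
  have : CharZero A := charZero_of_injective_algebraMap (FaithfulSMul.algebraMap_injective ℤ A)
  obtain ⟨K, _, _, _⟩ : ∃ (K : Type) (_ : Field K) (_ : Algebra A K), IsFractionRing A K :=
    ⟨FractionRing A, inferInstance, inferInstance, inferInstance⟩
  have hinj := IsFractionRing.injective A K
  have : CharZero K := charZero_of_injective_algebraMap hinj
  have : Module.Finite ℚ K := Module.Finite.of_isLocalization ℤ A (nonZeroDivisors ℤ)
  let pb := Field.powerBasisOfFiniteOfSeparable ℚ K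
  obtain ⟨a, b, hb, hz⟩ := IsFractionRing.div_surjective (A := A) pb.gen
  obtain ⟨r, hr, c, hc⟩ := (Algebra.IsAlgebraic.isAlgebraic (R := ℤ) b).exists_nonzero_dvd hb
  have hb0 : algebraMap A K b ≠ 0 := IsFractionRing.to_map_ne_zero_of_mem_nonZeroDivisors hb
  have hr0 : (r : K) ≠ 0 := Int.cast_ne_zero.mpr hr
  have h1 : (r : K) = algebraMap A K b * algebraMap A K c := by
    rw [← map_mul, ← hc]
    simp
  have h2 : (r : K)⁻¹ * algebraMap A K (a * c) = pb.gen := by
    rw [inv_mul_eq_iff_eq_mul₀ hr0, ← hz, map_mul, h1]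
    field_simp
  have h3 : ∀ z : A, ∃ d : ℤ, d ≠ 0 ∧ ∃ q : ℤ[X], aeval (a * c) q = d * z := by
    intro z
    obtain ⟨f, hf⟩ := pb.exists_eq_aeval' (algebraMap A K z)
    obtain ⟨d, hd, q, hq⟩ := clear_den (f.comp (C (r : ℚ)⁻¹ * X))
    refine ⟨d, hd, q, hinj ?_⟩
    rw [map_aeval_int, ← aeval_map_algebraMap ℚ, hq, map_mul, aeval_comp, map_mul (algebraMap A K) (d : A),
      hf, ← h2]
    simp
  have h4 : ∃ d : ℤ, d ≠ 0 ∧ ∀ z : A, ∃ q : ℤ[X], aeval (a * c) q = d * z := by
    choose d hd q hq using h3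
    obtain ⟨s, hs⟩ := Module.finite_def.mp (inferInstance : Module.Finite ℤ A)
    refine ⟨∏ b ∈ s, d b, Finset.prod_ne_zero_iff.mpr fun b _ => hd b, fun b => ?_⟩
    have hb : b ∈ Submodule.span ℤ (s : Set A) := hs ▸ Submodule.mem_top
    induction hb using Submodule.span_induction with
    | mem x hx =>
      refine ⟨C (∏ b ∈ s.erase x, d b) * q x, ?_⟩
      rw [← Finset.prod_erase_mul _ _ hx, Int.cast_mul, mul_assoc, map_mul, hq, aeval_C, eq_intCast]
    | zero => exact ⟨0, by simp⟩
    | add x y _ _ hx hy =>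
      obtain ⟨u, hu⟩ := hx
      obtain ⟨v, hv⟩ := hy
      exact ⟨u + v, by rw [map_add, hu, hv, mul_add]⟩
    | smul a x _ hx =>
      obtain ⟨u, hu⟩ := hx
      exact ⟨a • u, by rw [map_zsmul, hu, mul_smul_comm]⟩
  obtain ⟨N, hN, h5⟩ := h4
  have hi : IsIntegral ℤ (a * c) := Algebra.IsIntegral.isIntegral _
  obtain ⟨D, hD, h6⟩ := bezout_int (a := minpoly ℤ (a * c)) (b := derivative (minpoly ℤ (a * c))) (by
    rw [← derivative_map, ← minpoly.isIntegrallyClosed_eq_field_fractions ℚ K hi]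
    exact (minpoly.irreducible (Algebra.IsIntegral.isIntegral _)).separable)
  exact ⟨a * c, N, D, hN, hD, h5, h6⟩

theorem p_LIFT :
    S_LIFT := by
  intro A _ _ _ _
  obtain ⟨β, N, r, hN, hr, hq, sep⟩ := lift_gen A
  choose q hq using hq
  refine ⟨(N * r).natAbs, Int.natAbs_ne_zero.mpr (mul_ne_zero hN hr), fun p _ hp lb => ?_⟩
  rw [← Int.natCast_dvd] at hp
  have hpN : ¬ (p : ℤ) ∣ N := fun h => hp (h.mul_right r)
  have hpr : ¬ (p : ℤ) ∣ r := fun h => hp (h.mul_left N)
  have hi : IsIntegral ℤ β := Algebra.IsIntegral.isIntegral _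
  obtain ⟨a, ha⟩ := ZMod.ringHom_surjective (PadicInt.toZMod (p := p)) (lb β)
  obtain ⟨w, hw⟩ := exists_hensel sep ((isUnit_intCast_iff r).mpr hpr) (a := a) (by
    rw [ha, ← map_aeval_int, minpoly.aeval, map_zero])
  have hb : PadicInt.toZMod (a + (p : ℤ_[p]) * w) = lb β := by
    rw [map_add, map_mul, map_natCast, ZMod.natCast_self, zero_mul, add_zero, ha]
  generalize a + (p : ℤ_[p]) * w = b at hw hb
  have key : ∀ f g : ℤ[X], aeval β f = aeval β g → aeval b f = aeval b g := fun f g h => by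
    obtain ⟨k, hk⟩ := minpoly.isIntegrallyClosed_dvd hi (p := f - g) (by rw [map_sub, h, sub_self])
    rw [← sub_eq_zero, ← map_sub, hk, map_mul, hw, zero_mul]
  obtain ⟨u, hu⟩ := (isUnit_intCast_iff N).mpr hpN |>.exists_left_inv
  have e1 : aeval b (q 1) = N := (key _ (C N) (by simp [hq])).trans (by simp)
  have e0 : aeval b (q 0) = 0 := (key _ 0 (by simp [hq])).trans (by simp)
  have ea : ∀ x y, aeval b (q (x + y)) = aeval b (q x) + aeval b (q y) := fun x y =>
    (key _ (q x + q y) (by rw [map_add, hq, hq, hq, mul_add])).trans (map_add _ _ _)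
  have em : ∀ x y, (N : ℤ_[p]) * aeval b (q (x * y)) = aeval b (q x) * aeval b (q y) := fun x y => by
    have := key (C N * q (x * y)) (q x * q y) (by
      rw [map_mul, map_mul, hq, hq, hq, aeval_C, eq_intCast]
      ring)
    rwa [map_mul, map_mul, aeval_C, eq_intCast] at this
  refine ⟨{ toFun := fun x => u * aeval b (q x)
            map_one' := by rw [e1, hu]
            map_zero' := by rw [e0, mul_zero]
            map_add' := fun x y => by rw [ea, mul_add]
            map_mul' := fun x y => by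
              linear_combination u ^ 2 * em x y - u * aeval b (q (x * y)) * hu },
    RingHom.ext fun x => ?_⟩
  have h1 := congrArg PadicInt.toZMod hu
  rw [map_mul, map_intCast, map_one] at h1
  change PadicInt.toZMod (u * aeval b (q x)) = lb x
  rw [map_mul, map_aeval_int, hb, ← map_aeval_int, hq, map_mul, map_intCast, ← mul_assoc, h1,
    one_mul]

end Pool.Agent.P.MP_ab3ecb_nt.Inv
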