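import Pool.Agent.P.MP_ab3ecb_nt.Inv.A.Iface

/-! Step PADIC of the twist project. -/

namespace Pool.Agent.P.MP_ab3ecb_nt.Inv

open Polynomial NumberField IsDedekindDomain TensorProduct Finset
open scoped Classical

open Filter Topology in
lemma padic_hom (L : Type) [NormedField L] [IsUltrametricDist L] [CompleteSpace L] (p : ℕ)
    [Fact p.Prime] (hp : ‖(p : L)‖ < 1) : ∃ φ : ℤ_[p] →+* L, ∀ x, ‖φ x‖ ≤ 1 := by
  have h1 : ∀ (n : ℕ) (a b : ℤ), (a : ZMod (p ^ n)) = b → ‖(a : L) - b‖ ≤ ‖(p : L)‖ ^ n :=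
    fun n a b e => by
      obtain ⟨c, hc⟩ := (ZMod.intCast_eq_intCast_iff_dvd_sub _ _ _).1 e.symm
      rw [← Int.cast_sub, hc]
      push_cast
      rw [norm_mul, norm_pow]
      exact mul_le_of_le_one_right (by positivity) (IsUltrametricDist.norm_intCast_le_one L c)
  have h2 : ∀ (a b : ℕ → ℤ) (A B : L), (∀ n, (a n : ZMod (p ^ n)) = b n) →
      Tendsto (fun n => (a n : L)) atTop (𝓝 A) → Tendsto (fun n => (b n : L)) atTop (𝓝 B) →
      A = B := fun a b A B e ha hb =>
    sub_eq_zero.1 (tendsto_nhds_unique (ha.sub hb) (squeeze_zero_norm (fun n => h1 n _ _ (e n))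
      (tendsto_pow_atTop_nhds_zero_of_lt_one (norm_nonneg _) hp)))
  let s : ℤ_[p] → ℕ → ℤ := fun x n => (PadicInt.toZModPow n x).val
  have h3 : ∀ x n, (s x n : ZMod (p ^ n)) = PadicInt.toZModPow n x := fun x n => by simp [s]
  have h4 : ∀ x, ∃ A, Tendsto (fun n => (s x n : L)) atTop (𝓝 A) := fun x =>
    cauchySeq_tendsto_of_complete (cauchySeq_of_le_geometric _ 1 hp fun n => by
      rw [dist_eq_norm, one_mul]
      refine h1 n _ _ ?_
      rw [h3, ← PadicInt.cast_toZModPow n (n + 1) n.le_succ]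
      simp [s])
  choose f hf using h4
  refine ⟨⟨⟨⟨f, ?_⟩, fun x y => ?_⟩, ?_, fun x y => ?_⟩, fun x => ?_⟩
  · exact h2 _ (fun _ => 1) _ _ (fun n => by simp [h3]) (hf 1) (by simp)
  · exact h2 _ (fun n => s x n * s y n) _ _ (fun n => by simp [h3]) (hf (x * y))
      (by simpa using (hf x).mul (hf y))
  · exact h2 _ (fun _ => 0) _ _ (fun n => by simp [h3]) (hf 0) (by simp)
  · exact h2 _ (fun n => s x n + s y n) _ _ (fun n => by simp [h3]) (hf (x + y))
      (by simpa using (hf x).add (hf y))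
  · exact le_of_tendsto' (hf x).norm fun n => IsUltrametricDist.norm_intCast_le_one L _

theorem p_PADIC :
    S_PADIC := by
  intro K _ _ v p _ hp
  have : CharZero (Kv v) := charZero_of_injective_algebraMap (algebraMap K (Kv v)).injective
  obtain ⟨φ, hφ⟩ := padic_hom (Kv v) p (Valued.toNormedField.norm_lt_one_iff.2 (by
    have := (v.valuation_lt_one_iff_mem (K := K) _).2 hp
    rw [← HeightOneSpectrum.valuedAdicCompletion_eq_valuation'] at this
    rw [← map_natCast (algebraMap K (Kv v)), ← map_natCast (algebraMap (𝓞 K) K)]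
    exact this))
  refine ⟨⟨φ.codRestrict (Ov v) fun x => Valued.toNormedField.norm_le_one_iff.1 (hφ x)⟩,
    ⟨IsFractionRing.lift (A := ℤ_[p]) (g := φ) ((injective_iff_map_eq_zero φ).2 fun x hx => ?_)⟩⟩
  by_contra h0
  rw [PadicInt.unitCoeff_spec h0, map_mul, map_pow, map_natCast] at hx
  exact mul_ne_zero ((Units.isUnit _).map φ).ne_zero
    (pow_ne_zero _ (Nat.cast_ne_zero.2 (Fact.out : p.Prime).ne_zero)) hx

end Pool.Agent.P.MP_ab3ecb_nt.Inv
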