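import Pool.Agent.P.MP_ab3ecb_nt.Inv.A.Iface

/-! Step PF of the twist project. -/

namespace Pool.Agent.P.MP_ab3ecb_nt.Inv

open Polynomial NumberField IsDedekindDomain TensorProduct Finset
open scoped Classical

section

variable {A : Type} [CommRing A] [Module.Free ℤ A] [Module.Finite ℤ A] [Nontrivial A] {α : A}
  {r : ℤ}

lemma pf_mod (hd : Dual A r) (hr : r ≠ 0) {R : Type} [CommRing R] [IsLocalRing R]
    (hR : ∀ n : ℤ, n ≠ 0 → IsUnit (n : R)) (hα : Algebra.norm ℤ α ≠ 0) {u : R ⊗[ℤ] A}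
    (hu : IsUnit u) : ∃ (N : Type) (_ : Ring N) (_ : Algebra R N), IsAzumaya R N ∧
      ∀ (L : Type) [Field L] [CharZero L] [Algebra R L],
        cl L (L ⊗[R] N) = cp (tm A (algebraMap R L) u) (inc A L α) := by
  have h2 : IsUnit (2 : R) := by exact_mod_cast hR 2 two_ne_zero
  have hp := hd.perf (hR r hr)
  have hα' : IsUnit (inc A R α) := isUnit_inc (hR _ hα)
  obtain ⟨n1, a1, b1, k1, k2, k3⟩ := exists_pc h2 hp isUnit_one hα'
  obtain ⟨n2, a2, b2, k4, k5, k6⟩ := exists_pc h2 hp hu hα'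
  obtain ⟨N, _, _, -, -, h3, h4⟩ := (Mod.pc h2 n1 a1 b1 k1 k2).mul (Mod.pc h2 n2 a2 b2 k4 k5)
  refine ⟨N, _, _, h3, fun L _ _ _ => ?_⟩
  rw [h4, cp, ← tm_inc (algebraMap R L) α, k6 L _ _ _ bc_tm,
    ← map_one (tm A (algebraMap R L)), k3 L _ _ _ bc_tm]

lemma pf_class {E : Type} [Field E] [CharZero E] (hd : Dual A r) (hr : r ≠ 0)
    (hα : Algebra.norm ℤ α ≠ 0) {γ : E ⊗[ℤ] A} (hγ : IsUnit γ) :
    ∃ (B : Type) (_ : Ring B) (_ : Algebra E B), ∀ O : ValuationSubring E,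
      (∀ n : ℤ, n ≠ 0 → IsUnit (n : O)) → ∀ u : O ⊗[ℤ] A, IsUnit u →
      IsSquare (γ * tm A O.subtype u) → ∃ (N : Type) (_ : Ring N) (_ : Algebra O N),
        IsModel B O N ∧ ∀ (L : Type) [Field L] [CharZero L] [Algebra O L],
          cl L (L ⊗[O] N) = cp (tm A (algebraMap O L) u) (inc A L α) := by
  obtain ⟨B, hB⟩ := Quotient.exists_rep (cp γ (inc A E α))
  refine ⟨B.A, B.r, B.a, fun O hO u h1 h2 => ?_⟩
  obtain ⟨N, _, _, h3, h4⟩ := pf_mod hd hr hO hα h1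
  refine ⟨N, _, _, ⟨h3, cl_eq.mp ?_⟩, h4⟩
  rw [h4 E]
  refine Eq.trans ?_ hB.symm
  have k : IsUnit (inc A E α) := isUnit_inc (IsUnit.mk0 _ (Int.cast_ne_zero.mpr hα))
  rw [cp, cp, cf_congr _ hγ k (h1.map (tm A (algebraMap O E))) k h2 ⟨_, rfl⟩]

end

theorem p_PF (hINVZ : S_INVZ) (hPADIC : S_PADIC) :
    S_PF := by
  intro K E _ _ _ _ ι P hP A _ _ _ _ γ α M hM hd hγ hα hb hu S sgn hS hv
  have hM' : (M : ℤ) ≠ 0 := Int.natCast_ne_zero.mpr hM
  obtain ⟨B, _, _, key⟩ := pf_class hd hM' hα hγ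
  have hB : Unram E B := fun O hO => by
    obtain ⟨u, h1, h2⟩ := hu O hO
    obtain ⟨N, _, _, h3, -⟩ := key O (isUnit_intCast_of_rat O hO) u h1 h2
    exact ⟨N, _, _, h3⟩
  have hval : ∀ (L : Type) [Field L] [CharZero L] (Q : Pt E L) (u : Q.O ⊗[ℤ] A), IsUnit u →
      IsSquare (γ * tm A Q.O.subtype u) →
      ∀ (Inv : (B : Type) → [Ring B] → [Algebra L B] → AddCircle (1 : ℚ) → Prop)
        (q : AddCircle (1 : ℚ)), (∀ (B' : Type) [Ring B'] [Algebra L B'],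
          cl L B' = cp (tm A Q.φ u) (inc A L α) → Inv B' q) → ValInv B Q Inv q := by
    intro L _ _ Q u h1 h2 Inv q h3
    obtain ⟨N, _, _, h4, h5⟩ := key Q.O Q.isUnit_intCast u h1 h2
    refine ⟨N, _, _, h4, ?_⟩
    let := Q.φ.toAlgebra
    exact h3 _ (h5 L)
  have hgen : ∀ (L : Type) [Field L] [CharZero L] (ρ : K →+* L) (Q : KPt ι ρ),
      IsSquare (inc A L α) →
      ∀ (Inv : (B : Type) → [Ring B] → [Algebra L B] → AddCircle (1 : ℚ) → Prop),
        (∀ (B' : Type) [Ring B'] [Algebra L B'], cl L B' = 1 → Inv B' 0) →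
        ValInv B Q.toPt Inv 0 := by
    intro L _ _ ρ Q k1 Inv k2
    obtain ⟨u, h1, h2⟩ := hu Q.O fun q => by simpa using Q.mem q
    refine hval L Q.toPt u h1 h2 _ _ fun B' _ _ k4 => k2 B' ?_
    have hr : IsUnit ((M : ℤ) : L) := IsUnit.mk0 _ (Int.cast_ne_zero.mpr hM')
    have k5 : IsUnit (inc A L α) := isUnit_inc (IsUnit.mk0 _ (Int.cast_ne_zero.mpr hα))
    rwa [cp, cf_of_isSquare (hd.perf hr) isUnit_one k5 k1,
      cf_of_isSquare (hd.perf hr) (h1.map _) k5 k1, mul_one] at k4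
  have hs : ∀ v : Pl K, (M : 𝓞 K) ∉ v.asIdeal → (v ∈ S → sgn v = 1 ∨ sgn v = -1) ∧
      ValInv B (P.fin v).toPt (InvV v)
        (if v ∈ S ∧ sgn v = -1 then ((1 / 2 : ℚ) : AddCircle (1 : ℚ)) else 0) := by
    intro v q3
    have : CharZero (Kv v) := algebraRat.charZero _
    obtain ⟨u, m1, m2, k2, m4⟩ := hv v q3
    have k1 := hval _ _ u m1 m2 _ _ m4
    by_cases hq : v ∈ S
    · simp only [hq, if_true, true_and] at k1 k2 ⊢
      exact ⟨fun _ => k2, k1⟩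
    · simp only [hq, if_false, false_and] at k1 ⊢
      exact ⟨False.elim, by simpa using k1⟩
  let inv : Pl K →₀ AddCircle (1 : ℚ) := Finsupp.onFinset S
    (fun v => if v ∈ S ∧ sgn v = -1 then ((1 / 2 : ℚ) : AddCircle (1 : ℚ)) else 0)
    (fun v hv => by
      by_contra hcon
      exact hv (if_neg fun h => hcon h.1))
  have fin := hP _ hB (fun _ => 0) inv
    (fun ρ => hgen ℝ ρ (P.inf ρ) hb.1 _ fun _ _ _ h => Or.inl ⟨cl_eq.mp h, rfl⟩) ?_
  · rw [Finset.sum_const_zero, zero_add, Finsupp.sum_onFinset _ _ _ _ (fun _ _ => rfl)] at fin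
    refine prod_eq_one_of_sum _ sgn (fun v hv => (hs v (hS v hv)).1 hv) ?_
    refine Eq.trans (Finset.sum_congr rfl fun v hv => ?_) fin
    simp only [hv, true_and]
  · intro v
    change ValInv B _ _ (if v ∈ S ∧ sgn v = -1 then _ else _)
    by_cases q3 : (M : 𝓞 K) ∈ v.asIdeal
    · rw [if_neg fun h => hS v h.1 q3]
      have : CharZero (Kv v) := algebraRat.charZero _
      obtain ⟨p, p1, p2⟩ : ∃ p ∈ M.primeFactorsList, (p : 𝓞 K) ∈ v.asIdeal := by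
        rw [← Nat.prod_primeFactorsList hM, Nat.cast_list_prod] at q3
        obtain ⟨a, h1, h2⟩ := (Ideal.IsPrime.multiset_prod_mem_iff_exists_mem v.isPrime
          (↑(M.primeFactorsList.map (Nat.cast : ℕ → 𝓞 K)))).mp (by simpa using q3)
        obtain ⟨p, h3, rfl⟩ := List.mem_map.mp (Multiset.mem_coe.mp h1)
        exact ⟨p, h3, h2⟩
      have : Fact p.Prime := ⟨Nat.prime_of_mem_primeFactorsList p1⟩
      obtain ⟨φ⟩ := (hPADIC K v p p2).2
      have k := (hb.2 ⟨p, Nat.mem_primeFactors_iff_mem_primeFactorsList.mpr p1⟩).map (tm A φ)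
      rw [tm_inc] at k
      exact hgen _ _ (P.fin v) k _ (hINVZ K v)
    · exact (hs v q3).2

end Pool.Agent.P.MP_ab3ecb_nt.Inv
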