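import Pool.Agent.P.MP_ab3ecb_nt.Inv.A.Iface

/-! Step RECIP of the twist project. -/

namespace Pool.Agent.P.MP_ab3ecb_nt.Inv

open Polynomial NumberField IsDedekindDomain TensorProduct Finset
open scoped Classical

set_option linter.unusedSectionVars false

lemma recip_unit {r : ℕ} {R L k : Type} [CommRing R] [Field L] [Algebra R L] [Field k]
    {res : R →+* k} (h : Tame r L res) {n : ℤ} (hn : ¬ (r : ℤ) ∣ n) : IsUnit (n : R) := by
  obtain ⟨a, b, e⟩ := ((Nat.prime_iff_prime_int.mp h.prime).coprime_iff_not_dvd).2 hn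
  have h0 : (r : k) = 0 := by rw [← map_natCast res]; exact (h.ker _).2 dvd_rfl
  rw [h.unit, map_intCast]
  intro z
  have := congrArg (Int.cast : ℤ → k) e
  simp [h0, z] at this

lemma recip_int {R B : Type} [CommRing R] [CommRing B] [Algebra R B] {n : ℤ}
    (h : IsUnit (n : R)) : IsUnit (n : B) := by simpa using h.map (algebraMap R B)

lemma recip_chk_one {k : Type} [Field k] : chk (1 : k) = 1 := by simp [chk]

lemma recip_pj_zero {B : Type} [CommRing B] (u : B) : pj 0 u = 1 := by simp [pj]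

variable {K : Type} [Field K] [NumberField K]

lemma recip_cz (v : Pl K) : CharZero (Kv v) :=
  charZero_of_injective_algebraMap (algebraMap K (Kv v)).injective

attribute [local instance] recip_cz

lemma recip_prime (v : Pl K) : ∃ r : ℕ, r.Prime ∧ (r : 𝓞 K) ∈ v.asIdeal := by
  have := v.isMaximal
  let := Ideal.Quotient.field v.asIdeal
  have : Finite (𝓞 K ⧸ v.asIdeal) := Ideal.finiteQuotientOfFreeOfNeBot _ v.ne_bot
  refine ⟨ringChar (𝓞 K ⧸ v.asIdeal), CharP.char_prime_of_ne_zero (𝓞 K ⧸ v.asIdeal)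
    (CharP.ringChar_ne_zero_of_finite _), ?_⟩
  rw [← Ideal.Quotient.eq_zero_iff_mem, map_natCast]
  exact ringChar.Nat.cast_ringChar

lemma recip_nd {v : Pl K} {r M : ℕ} (hr : (r : 𝓞 K) ∈ v.asIdeal) (hM : (M : 𝓞 K) ∉ v.asIdeal) :
    ¬ r ∣ M := fun h => hM (v.asIdeal.mem_of_dvd (Nat.cast_dvd_cast h) hr)

lemma recip_mem (z : GP K) (n : ℕ) : (n : 𝓞 K) ∈ z.pl.asIdeal ↔ z.1.1 ∣ n := by
  rw [GP.mem_pl, map_natCast, ZMod.natCast_eq_zero_iff]

lemma recip_ne {z w : GP K} (h : z.1.1 ≠ w.1.1) : z.pl ≠ w.pl := fun e => by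
  have := (recip_mem z z.1.1).2 dvd_rfl
  rw [e, recip_mem, Nat.prime_dvd_prime_iff_eq w.1.2 z.1.2] at this
  exact h this.symm

variable {A A' : Type} [CommRing A] [Module.Free ℤ A] [Module.Finite ℤ A] [Nontrivial A]
  [CommRing A'] [Module.Free ℤ A'] [Module.Finite ℤ A'] [Nontrivial A']
  {Pz : ℤ[X]} {F0 F1 : (𝓞 K)[X]} {M : ℕ} {i : 𝓞 K →+* A} {i' : 𝓞 K →+* A'} {G' H' : A'[X]} {θ : A}

lemma recip_root (hP : Pol Pz F0 F1 M) (h : F0.eval₂ i θ = 0) : aeval θ Pz = 0 := by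
  have := congrArg (eval₂ i θ) hP.mul
  rw [eval₂_mul, h, zero_mul, eval₂_map, RingHom.ext_int (i.comp _) (algebraMap ℤ A)] at this
  exact this.symm

/-- The idempotent that carries `H'(θ)` lies on the diagonal. -/
lemma recip_diag (hP : Pol Pz F0 F1 M) (hS : Spl Pz M G' H') (hG : G' ∣ F0.map i')
    (h : F0.eval₂ i θ = 0) {R : Type} [CommRing R] (hM : IsUnit ((M : ℤ) : R)) (ψ : A →+* R)
    (φ : A' →+* R) {e : R} (he : IsE e (H'.eval₂ φ (ψ θ))) (z : 𝓞 K) :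
    e * φ (i' z) = e * ψ (i z) := by
  have h1 := hS.hv_mul (ρ := φ) (ψ θ) 1
  rw [hv_aeval, ← map_aeval_int, recip_root hP h, map_zero, hv_one, hv_one] at h1
  have h2 : e * G'.eval₂ φ (ψ θ) = 0 := he.2.2.mul_right_cancel (by
    linear_combination e * h1 - G'.eval₂ φ (ψ θ) * he.1)
  obtain ⟨Q, hQ⟩ := hG
  have h3 : e * F0.eval₂ (φ.comp i') (ψ θ) = 0 := by
    rw [← eval₂_map, hQ, eval₂_mul, ← mul_assoc, h2, zero_mul]
  have h4 : F0.eval₂ (ψ.comp i) (ψ θ) = 0 := by rw [← hom_eval₂, h, map_zero]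
  obtain ⟨T, S, hT⟩ := hP.gen z
  have h5 := congrArg (eval₂ (φ.comp i') (ψ θ)) hT
  have h6 := congrArg (eval₂ (ψ.comp i) (ψ θ)) hT
  rw [eval₂_sub, eval₂_mul, eval₂_C, eval₂_map, RingHom.ext_int (RingHom.comp _ _) (algebraMap ℤ R),
    map_mul, map_natCast, RingHom.comp_apply] at h5 h6
  rw [Int.cast_natCast] at hM
  refine hM.mul_left_cancel ?_
  linear_combination -e * h5 + e * h6 - S.eval₂ (φ.comp i') (ψ θ) * h3 +
    e * S.eval₂ (ψ.comp i) (ψ θ) * h4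

/-- The diagonal idempotent over the ring `R`. -/
abbrev recip_D (i : 𝓞 K →+* A) {R : Type} [CommRing R] (ρ : 𝓞 K →+* R) (e : R ⊗[ℤ] A) : Prop :=
  IsD ((algebraMap R (R ⊗[ℤ] A)).comp ρ) ((inc A R).comp i) e

lemma recip_D.tm {R S : Type} [CommRing R] [CommRing S] {ρ : 𝓞 K →+* R} {ρ' : 𝓞 K →+* S}
    {e : R ⊗[ℤ] A} {e' : S ⊗[ℤ] A} (h : recip_D i ρ e) (h' : recip_D i ρ' e') (φ : R →+* S)
    (hφ : ∀ z, φ (ρ z) = ρ' z) : tm A φ e = e' := by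
  have := IsD.map h (MP_ab3ecb_nt.tm A φ)
  rw [← RingHom.comp_assoc _ (inc A R), tm_comp,
    show (MP_ab3ecb_nt.tm A φ).comp ((algebraMap R _).comp ρ) = (algebraMap S _).comp ρ' from
      RingHom.ext fun z => by simp only [RingHom.comp_apply, tm_alg, hφ]] at this
  exact this.unique h'

variable {E : Type} [Field E] [CharZero E] {ι : K →+* E} {ν α : A} {e : E ⊗[ℤ] A}

lemma recip_O (hd : Dual (𝓞 K) M) (hM : M ≠ 0) {N : ℤ} (hN : N ≠ 0)
    (hν : ∀ (R : Type) [CommRing R] (ψ : A →+* R), IsUnit ((M : ℤ) : R) → IsUnit (N : R) →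
      IsUnit (ψ ν)) (he : recip_D i (ι.comp (algebraMap (𝓞 K) K)) e) (O : ValuationSubring E)
    (hO : ∀ q : ℚ, (q : E) ∈ O) : ∃ (ρ : 𝓞 K →+* O) (e' : O ⊗[ℤ] A),
      (∀ z, (ρ z : E) = ι (algebraMap (𝓞 K) K z)) ∧ recip_D i ρ e' ∧
      IsUnit (pj e' (inc A O ν)) ∧
      IsSquare (pj e (inc A E ν) * tm A O.subtype (pj e' (inc A O ν))) := by
  have h1 : ∀ z, ι.comp (algebraMap (𝓞 K) K) z ∈ O := fun z => by
    have h2 : IsIntegral O (ι.comp (algebraMap (𝓞 K) K) z) :=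
      ((Algebra.IsIntegral.isIntegral (R := ℤ) z).map
        (ι.comp (algebraMap (𝓞 K) K)).toIntAlgHom).tower_top
    obtain ⟨y, hy⟩ := IsIntegrallyClosed.isIntegral_iff.1 h2
    exact hy ▸ y.2
  have h2 : ∀ n : ℤ, n ≠ 0 → IsUnit (n : O ⊗[ℤ] A) := fun n hn =>
    recip_int (R := O) (IsUnit.of_mul_eq_one ⟨_, hO (n : ℚ)⁻¹⟩ (Subtype.ext (by simp [hn])))
  have h3 := h2 M (by exact_mod_cast hM)
  obtain ⟨e', h4⟩ := exists_isD hd h3
    ((algebraMap O _).comp ((ι.comp (algebraMap (𝓞 K) K)).codRestrict O h1)) ((inc A O).comp i)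
  refine ⟨_, e', fun _ => rfl, h4, isUnit_pj h4.1 (hν _ _ h3 (h2 N hN)), pj e (inc A E ν), ?_⟩
  rw [map_pj, tm_inc, recip_D.tm h4 he O.subtype fun _ => rfl]

lemma recip_loc (hSG : S_SGINV) (hd : Dual (𝓞 K) M) (hM : M ≠ 0) {N : ℤ} (hN : N ≠ 0)
    (hν : ∀ (R : Type) [CommRing R] (ψ : A →+* R), IsUnit ((M : ℤ) : R) → IsUnit (N : R) →
      IsUnit (ψ ν)) (he : recip_D i (ι.comp (algebraMap (𝓞 K) K)) e) {v : Pl K}
    (P : KPt ι (algebraMap K (Kv v))) {q : ℕ} {k : Type} [Field k] {l : 𝓞 K →+* k}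
    {res : Ov v →+* k} (hT : TameV v q l res) {ev : Ov v ⊗[ℤ] A}
    (hv : recip_D i (algebraMap (𝓞 K) (Ov v)) ev) {s : ℤ}
    (hs : SgT q res (cp (tm A (algebraMap (Ov v) (Kv v)) (pj ev (inc A _ ν))) (inc A _ α)) s) :
    LocK (pj e (inc A E ν)) α v P.toPt s := by
  obtain ⟨ρ, e', h1, h2, h3, h4⟩ := recip_O hd hM hN hν he P.O fun q => by
    rw [← map_ratCast ι]; exact P.mem _
  obtain ⟨h5, h6⟩ := hSG K v q k l res hT _ s hs
  refine ⟨_, h3, h4, h5, fun B _ _ hB => h6 B ?_⟩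
  have h7 := IsD.map hv (tm A (algebraMap (Ov v) (Kv v)))
  rw [← RingHom.comp_assoc _ (inc A _), tm_comp] at h7
  rw [hB, map_pj, map_pj, tm_inc, tm_inc, recip_D.tm
    (ρ' := (algebraMap (Ov v) (Kv v)).comp (algebraMap (𝓞 K) (Ov v))) h2 h7 P.φ fun z => ?_]
  rw [show ρ z = ⟨_, P.mem _⟩ from Subtype.ext (h1 z), P.comm]
  rfl

lemma recip_tame (hT : S_TAME) (hP : Pol Pz F0 F1 M) {v : Pl K} (hv : (M : 𝓞 K) ∉ v.asIdeal) :
    ∃ (r : ℕ) (k : Type) (_ : Field k) (l : 𝓞 K →+* k) (res : Ov v →+* k),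
      (r : 𝓞 K) ∈ v.asIdeal ∧ RingHom.ker l = v.asIdeal ∧ TameV v r l res := by
  obtain ⟨r, h1, h2⟩ := recip_prime v
  have := v.isMaximal
  let := Ideal.Quotient.field v.asIdeal
  obtain ⟨res, h3⟩ := hT K M r v _ (Ideal.Quotient.mk v.asIdeal) hP.du hP.two hv h1 h2
    Ideal.Quotient.mk_surjective Ideal.mk_ker
  exact ⟨r, _, _, _, res, h2, Ideal.mk_ker, h3⟩

lemma recip_tame' (hT : S_TAME) (hP : Pol Pz F0 F1 M) {p : ℕ} [hp : Fact p.Prime] (h : ¬ p ∣ M)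
    (l : 𝓞 K →+* ZMod p) : (M : 𝓞 K) ∉ (GP.pl ⟨⟨p, hp.out⟩, l⟩).asIdeal ∧
      ∃ res : Ov (GP.pl ⟨⟨p, hp.out⟩, l⟩) →+* ZMod p, TameV _ p l res :=
  ⟨mt (recip_mem _ _).1 h, hT K M p _ _ l hP.du hP.two (mt (recip_mem _ _).1 h) hp.out
    ((recip_mem ⟨⟨p, hp.out⟩, l⟩ p).2 dvd_rfl) (ZMod.ringHom_surjective l) rfl⟩

/-- The factorization property of the norm `ν`. -/
def recip_N (M : ℕ) (H' : A'[X]) (θ : A) (ϖ : A') (ν : A) : Prop :=
  ∀ (R : Type) [CommRing R] (ψ : A →+* R) (φ : A' →+* R) (q : ℕ) (m : ℤ) (s : R),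
    IsUnit ((M : ℤ) : R) → IsUnit (m : R) → (∀ x y : R, q * x = q * y → x = y) →
    Algebra.norm ℤ ϖ = q * m → φ ϖ = q * s → ∃ e γ : R, IsE e (H'.eval₂ φ (ψ θ)) ∧ IsUnit γ ∧
      ψ ν = (q * e + (1 - e)) * γ

variable {q : ℕ} {l : A' →+* ZMod q} {ϖ : A'} {v : Pl K} {k : Type} [Field k] {l0 : 𝓞 K →+* k}
  {res : Ov v →+* k} {ev : Ov v ⊗[ℤ] A}

lemma recip_ex (i : 𝓞 K →+* A) (hP : Pol Pz F0 F1 M) (h : IsUnit ((M : ℤ) : Ov v)) :
    ∃ ev, recip_D i (algebraMap (𝓞 K) (Ov v)) ev :=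
  exists_isD hP.du (recip_int (B := Ov v ⊗[ℤ] A) h) _ _

lemma recip_fac (hP : Pol Pz F0 F1 M) (hS : Spl Pz M G' H') (hG : G' ∣ F0.map i')
    (h : F0.eval₂ i θ = 0) (hν : recip_N M H' θ ϖ ν) (hϖ : Lf M q l ϖ) (hq : ¬ q ∣ M)
    (hT : TameV v q l0 res) (φ : A' →+* Ov v) (h0 : res (φ ϖ) = 0) : ∃ e γ : Ov v ⊗[ℤ] A,
      IsE e (H'.eval₂ ((algebraMap (Ov v) _).comp φ) (inc A _ θ)) ∧ IsUnit γ ∧
      inc A _ ν = pj e q * γ ∧
      ∀ z, e * algebraMap (Ov v) _ (φ (i' z)) = e * inc A _ (i z) := by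
  obtain ⟨⟨m, j1, j2⟩, -⟩ := hϖ
  obtain ⟨s, hs⟩ := (hT.ker _).1 h0
  have hu : ∀ n : ℤ, n ∣ M → IsUnit (n : Ov v ⊗[ℤ] A) := fun n hn =>
    recip_int (recip_unit hT.toTame (not_dvd_of_dvd hq hn))
  have q0 : (q : Ov v) ≠ 0 := fun z => by
    have := congrArg (algebraMap (Ov v) (Kv v)) z
    rw [map_natCast, map_zero, Nat.cast_eq_zero] at this
    exact hT.prime.ne_zero this
  obtain ⟨e, γ, m1, m2, m3⟩ := hν _ (inc A (Ov v)) ((algebraMap (Ov v) _).comp φ) q m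
    (algebraMap (Ov v) _ s) (hu _ dvd_rfl) (hu m j1) (fun x y hxy => by
      rw [← map_natCast (algebraMap (Ov v) _), ← Algebra.smul_def, ← Algebra.smul_def] at hxy
      exact smul_right_injective _ q0 hxy) j2
    (by rw [RingHom.comp_apply, hs, map_mul, map_natCast])
  exact ⟨e, γ, m1, m2, by rw [m3, pj, mul_comm e],
    recip_diag hP hS hG h (hu _ dvd_rfl) _ _ m1⟩

/-- Away from the place of `ϖ` the diagonal part of `ν` is a unit. -/
lemma recip_away (hPA : S_PADIC) (hP : Pol Pz F0 F1 M) (hS : Spl Pz M G' H')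
    (hG : G' ∣ F0.map i') (h : F0.eval₂ i θ = 0) (hν : recip_N M H' θ ϖ ν)
    (hν' : ∀ (R : Type) [CommRing R] (ψ : A →+* R), IsUnit ((M : ℤ) : R) →
      IsUnit ((Algebra.norm ℤ ϖ : ℤ) : R) → IsUnit (ψ ν)) (hϖ : Lf M q l ϖ) (q1 : q.Prime)
    (hT : S_TAME) (hM : (M : 𝓞 K) ∉ v.asIdeal) (hne : v ≠ GP.pl ⟨⟨q, q1⟩, l.comp i'⟩)
    (hv : recip_D i (algebraMap (𝓞 K) (Ov v)) ev) : IsUnit (pj ev (inc A _ ν)) := by
  obtain ⟨r, k, _, l0, res, h1, h2, h3⟩ := recip_tame hT hP hM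
  have r3 := recip_nd h1 hM
  by_cases e : r = q
  swap
  · exact isUnit_pj hv.1 (hν' _ _
      (recip_int (recip_unit h3.toTame (not_dvd_of_dvd r3 dvd_rfl)))
      (recip_int (recip_unit h3.toTame (hϖ.not_dvd q1 h3.prime r3 e))))
  subst e
  have : Fact r.Prime := ⟨q1⟩
  obtain ⟨c⟩ := (hPA K v r h1).1
  obtain ⟨φ, hφ⟩ := hϖ.2.2
  have k1 : ∀ a, l a = 0 → res (c.comp φ a) = 0 := fun a ha => by
    have : (r : ℤ_[r]) ∣ φ a := by
      rw [← Ideal.mem_span_singleton, ← PadicInt.maximalIdeal_eq_span_p, ← PadicInt.ker_toZMod,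
        RingHom.mem_ker, ← RingHom.comp_apply, hφ, ha]
    simpa using (h3.ker _).2 (map_natCast c r ▸ map_dvd c this)
  obtain ⟨e, γ, m1, m2, m3, m4⟩ := recip_fac hP hS hG h hν hϖ r3 h3 _ (k1 _ hϖ.2.1)
  obtain ⟨z, z1, z2⟩ := SetLike.not_le_iff_exists.1 fun hle => hne (HeightOneSpectrum.ext
    ((GP.pl ⟨⟨r, q1⟩, l.comp i'⟩).isMaximal.eq_of_le v.isPrime.ne_top hle).symm)
  have k2 : IsUnit (algebraMap (𝓞 K) (Ov v) z - c.comp φ (i' z)) := by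
    rwa [h3.unit, map_sub, k1 _ z1, sub_zero, h3.comp, Ne, ← RingHom.mem_ker, h2]
  have k3 : ev * e = 0 := (k2.map (algebraMap (Ov v) (Ov v ⊗[ℤ] A))).mul_right_cancel (by
    have := hv.2.1 z
    simp only [RingHom.comp_apply] at this m4 ⊢
    rw [map_sub]
    linear_combination e * this - ev * m4 z)
  rw [m3, pj_mul hv.1, show pj ev (pj e r) = 1 by unfold pj; linear_combination (r - 1) * k3,
    one_mul]
  exact isUnit_pj hv.1 m2

theorem p_RECIP (hTAME : S_TAME) (hSGINV : S_SGINV) (hINVZ : S_INVZ) (hSYT : S_SYT) (hCP : S_CP) (hCPD : S_CPD) (hLF : S_LF) (hPF : S_PF) (hPADIC : S_PADIC) :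
    S_RECIP := by
  intro K E _ _ _ _ ι P hP Pz F0 F1 M hPol A A' _ _ _ _ _ _ _ _ i i' G' H' θ hd hd' hS hG hθ
    q p p' q1 p1 p1' q3 p3 p3' n1 n2 n3 l ϖ lb lb' π π' hϖ hπ hπ' hb
  obtain ⟨ν, h3, h4, h5⟩ := exists_nu hS hd' (recip_root hPol hθ) ϖ
  have hM := hPol.M0
  have hN := hϖ.ne_zero q1 hM
  have hu : ∀ (L : Type) [Field L] [CharZero L] (n : ℤ), n ≠ 0 → IsUnit (n : L ⊗[ℤ] A) :=
    fun L _ _ n hn => recip_int (R := L) (IsUnit.mk0 _ (Int.cast_ne_zero.2 hn))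
  have hM' : ((M : ℕ) : ℤ) ≠ 0 := by exact_mod_cast hM
  have hα : Algebra.norm ℤ (π * π') ≠ 0 := by
    rw [map_mul]; exact mul_ne_zero (hπ.ne_zero p1 hM) (hπ'.ne_zero p1' hM)
  obtain ⟨e, he⟩ := exists_isD hPol.du (hu E _ hM')
    ((algebraMap E _).comp (ι.comp (algebraMap (𝓞 K) K))) ((inc A E).comp i)
  set wq : Pl K := GP.pl ⟨⟨q, q1⟩, l.comp i'⟩ with hwq
  set wp : Pl K := GP.pl ⟨⟨p, p1⟩, lb.comp i⟩ with hwp
  set wp' : Pl K := GP.pl ⟨⟨p', p1'⟩, lb'.comp i⟩ with hwp'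
  have d1 : wp ≠ wq := recip_ne n1
  have d2 : wp' ≠ wq := recip_ne n2
  have d3 : wp ≠ wp' := recip_ne n3
  have key := hPF K E ι P hP A (pj e (inc A E ν)) (π * π') M hM hd
    (isUnit_pj he.1 (h3 _ _ (hu E _ hM') (hu E _ hN))) hα hb
    (fun O hO => let ⟨_, _, _, _, k⟩ := recip_O hPol.du hM hN h3 he O hO; ⟨_, k⟩)
    {wq, wp, wp'} (fun w => if w = wq then Xe q (H'.eval₂ ((algebraMap (ZMod q) _).comp l)
      (inc A _ θ)) (π * π') else if w = wp then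
        Xe p (H'.eval₂ (inc A' _) (algebraMap _ _ (lb θ))) ϖ
      else Xe p' (H'.eval₂ (inc A' _) (algebraMap _ _ (lb' θ))) ϖ) (fun w hw => ?_) fun v hv => ?_
  · rw [Finset.prod_insert (by simp [d1.symm, d2.symm]), Finset.prod_pair d3, if_pos rfl,
      if_neg d1, if_pos rfl, if_neg d2, if_neg d3.symm, Xe_mul q1] at key
    rw [rv, rv, ← key]
    ring
  · simp only [mem_insert, mem_singleton] at hw
    rcases hw with rfl | rfl | rfl
    exacts [mt (recip_mem _ _).1 q3, mt (recip_mem _ _).1 p3, mt (recip_mem _ _).1 p3']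
  have k6 : ∀ (r : ℕ) (r1 : r.Prime) (lb : A →+* ZMod r) (π β : A), ¬ r ∣ M → Lf M r lb π →
      ¬ (r : ℤ) ∣ Algebra.norm ℤ β → r ≠ q → LocK (pj e (inc A E ν)) (π * β) _
        (P.fin (GP.pl ⟨⟨r, r1⟩, lb.comp i⟩)).toPt
        (Xe r (H'.eval₂ (inc A' _) (algebraMap _ _ (lb θ))) ϖ) := fun r r1 lb π β r3 m1 m2 m3 => by
    have : Fact r.Prime := ⟨r1⟩
    obtain ⟨j1, res, j2⟩ := recip_tame' hTAME hPol r3 (lb.comp i)
    obtain ⟨φ, j3, j4, j5⟩ := (hLF K M A i hPol.du hd r lb π r1 r3 m1 _ j1).2 res j2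
    obtain ⟨ev, j6⟩ := recip_ex i hPol (recip_unit j2.toTame (not_dvd_of_dvd r3 dvd_rfl))
    have j7 := j5 β m2 0 _ (mul_zero _)
      (recip_away hPADIC hPol hS hG hθ h5 h3 hϖ q1 hTAME j1 (recip_ne m3) j6) (map_zero _)
    have j8 : lft φ ev = 1 := by
      have := IsD.map j6 (lft φ).toRingHom
      rw [← RingHom.comp_assoc _ (inc A _),
        show (lft φ).toRingHom.comp (inc A _) = φ from RingHom.ext (lft_inc φ), j4,
        ← RingHom.comp_assoc, show (lft φ).toRingHom.comp (algebraMap _ _) = RingHom.id _ from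
          RingHom.ext (lft φ).commutes, RingHom.id_comp] at this
      exact this.eq_one
    have j9 : lft φ (pj ev (inc A _ ν)) = φ ν := by simp [pj, j8, lft_inc]
    rw [recip_pj_zero, recip_pj_zero, one_mul, map_one, map_one, recip_chk_one, one_mul, j9,
      ← RingHom.comp_apply, j3, chk_eq, h4 r r3] at j7
    exact recip_loc hSGINV hPol.du hM hN h3 he _ j2 j6 j7
  by_cases e0 : v = wq
  · subst e0
    have : Fact q.Prime := ⟨q1⟩
    obtain ⟨-, res, j2⟩ := recip_tame' hTAME hPol q3 (l.comp i')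
    obtain ⟨φ, j3, j4, -⟩ := (hLF K M A' i' hPol.du hd' q l ϖ q1 q3 hϖ _ hv).2 res j2
    have j5 := recip_unit j2.toTame (not_dvd_of_dvd q3 dvd_rfl)
    obtain ⟨ev, j6⟩ := recip_ex i hPol j5
    obtain ⟨e', γ, m1, m2, m3, m4⟩ := recip_fac hPol hS hG hθ h5 hϖ q3 j2 φ
      (by rw [← RingHom.comp_apply, j3, hϖ.2.1])
    have m5 : e' * ev = e' := j6.mul_eq fun z => by rw [← j4]; exact m4 z
    have m6 := ((hCP q _ (Kv wq) _ res j2.toTame A M hd j5 e' _ (inc A _ (π * π')) m1.1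
      (isUnit_pj j6.1 m2)).1 (isUnit_inc (recip_unit j2.toTame (by
        rw [map_mul, (Nat.prime_iff_prime_int.mp q1).dvd_mul, not_or]
        exact ⟨hπ.not_dvd p1 q1 q3 n1.symm, hπ'.not_dvd p1' q1 q3 n2.symm⟩)))).2
    have m7 := m1.map (tm A res)
    rw [hom_eval₂, tm_inc, show (tm A res).comp ((algebraMap _ _).comp φ) =
      (algebraMap (ZMod q) _).comp l from RingHom.ext fun a => by
        rw [RingHom.comp_apply, RingHom.comp_apply, tm_alg, ← RingHom.comp_apply res, j3]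
        rfl] at m7
    rw [← show pj ev (pj e' q) = pj e' q by unfold pj; linear_combination (q - 1) * m5,
      ← pj_mul j6.1, ← m3, tm_inc, ← norm_tm, map_pj (tm A res), tm_inc, ← m7.ide_eq] at m6
    rw [if_pos (mem_insert_self _ _), if_pos rfl, Xe_eq_Xk q1]
    exact recip_loc hSGINV hPol.du hM hN h3 he _ j2 j6 m6
  by_cases e1 : v = wp
  · subst e1
    rw [if_pos (by simp), if_neg e0, if_pos rfl]
    exact k6 p p1 lb π π' p3 hπ (hπ'.not_dvd p1' p1 p3 n3) n1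
  by_cases e2 : v = wp'
  · subst e2
    rw [if_pos (by simp), if_neg e0, if_neg e1, mul_comm π]
    exact k6 p' p1' lb' π' π p3' hπ' (hπ.not_dvd p1 p1' p3' n3.symm) n2
  rw [if_neg (by simp [e0, e1, e2])]
  obtain ⟨r, k, _, l0, res, j1, -, j2⟩ := recip_tame hTAME hPol hv
  have j5 := recip_unit j2.toTame (not_dvd_of_dvd (recip_nd j1 hv) dvd_rfl)
  obtain ⟨ev, j6⟩ := recip_ex i hPol j5
  have m1 := (hLF K M A i hPol.du hd p lb π p1 p3 hπ v hv).1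
    (fun h => e1 (HeightOneSpectrum.ext h.symm)) ev j6
  have m2 := (hLF K M A i hPol.du hd p' lb' π' p1' p3' hπ' v hv).1
    (fun h => e2 (HeightOneSpectrum.ext h.symm)) ev j6
  have m3 := m1.mul m2
  rw [← pj_mul j6.1, ← map_mul] at m3
  have m4 := ((hCP r _ (Kv v) _ res j2.toTame A M hd j5 0 _ _ (mul_zero _)
    (recip_away hPADIC hPol hS hG hθ h5 h3 hϖ q1 hTAME hv e0 j6)).1 m3).1
  refine recip_loc hSGINV hPol.du hM hN h3 he _ j2 j6 ?_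
  rw [map_pj, map_pj, tm_inc, tm_inc, ← hCPD (Kv v) A M hd hM' _ _ _
    (by rw [← map_mul, j6.1]) (h3 _ _ (hu _ _ hM') (hu _ _ hN))
    (isUnit_inc (IsUnit.mk0 _ (Int.cast_ne_zero.2 hα)))] at m4
  rw [map_pj, tm_inc, m4]
  exact (hSYT r _ (Kv v) k res j2.toTame).2.2.1

end Pool.Agent.P.MP_ab3ecb_nt.Inv
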