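import Pool.Agent.P.MP_ab3ecb_nt.Inv.A.Iface

/-! Step SGINV of the twist project. -/

namespace Pool.Agent.P.MP_ab3ecb_nt.Inv

open Polynomial NumberField IsDedekindDomain TensorProduct Finset
open scoped Classical

open Quaternion QuaternionAlgebra in
lemma sginv_cyc {K : Type} [Field K] [NumberField K] {v : Pl K} {q : ℕ} {k : Type} [Field k]
    {l : 𝓞 K →+* k} {res : Ov v →+* k} (h : TameV v q l res) {ε : Ov v} (h0 : res ε ≠ 0)
    (hε : ¬ IsSquare (res ε)) :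
    InvV v ℍ[Kv v,algebraMap (Ov v) (Kv v) ε,0,(q : Kv v)] ((1 / 2 : ℚ) : AddCircle (1 : ℚ)) := by
  have := h.fin
  have := Fintype.ofFinite k
  have h2 : ringChar k ≠ 2 := fun e => h.two (by
    have := ringChar.Nat.cast_ringChar (R := k)
    rwa [e] at this)
  have h3 := FiniteField.odd_card_of_char_ne_two h2
  obtain ⟨m, hm⟩ : ∃ m, Fintype.card k = 2 * m + 1 := ⟨Fintype.card k / 2, by omega⟩
  have hz : ∀ z, res z = 0 → IsLocalRing.residue (Ov v) z = 0 := fun z e =>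
    (IsLocalRing.residue_eq_zero_iff z).2 fun u => (h.unit z).1 u e
  have h1 : res (ε ^ m + 1) = 0 := by
    have k1 := (FiniteField.pow_dichotomy h2 h0).resolve_left
      (mt (FiniteField.isSquare_iff h2 h0).2 hε)
    rw [show Fintype.card k / 2 = m by omega] at k1
    rw [map_add, map_pow, map_one, k1, neg_add_cancel]
  have hdeg : (X ^ 2 - C ε : (Ov v)[X]).natDegree = 2 := natDegree_X_pow_sub_C
  have hq : (q : Kv v) ≠ 0 := fun e => by
    have := h.val
    rw [e, map_zero] at this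
    exact WithZero.exp_ne_zero this.symm
  generalize ha : algebraMap (Ov v) (Kv v) ε = a
  set θ : ℍ[Kv v,a,0,(q : Kv v)] := ⟨0, 1, 0, 0⟩ with hθ
  have hθ2 : θ ^ 2 = algebraMap (Kv v) _ a := by
    rw [sq, hθ]
    ext <;> simp
  refine ⟨ℍ[Kv v,a,0,(q : Kv v)], _, _, 2, q, BrEq.of_equiv AlgEquiv.refl, ⟨θ, ⟨0, 0, 1, 0⟩,
    X ^ 2 - C ε, - C (ε ^ m + 1) * X, hdeg, ?_, ?_, monic_X_pow_sub_C _ two_ne_zero, ?_, ?_, ?_,
    ?_, hq, ?_⟩, ?_⟩
  · rw [QuaternionAlgebra.finrank_eq_four]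
    rfl
  · refine eq_top_iff.mpr fun x _ => ?_
    have m1 : θ ∈ Algebra.adjoin (Kv v) {θ, ⟨0, 0, 1, 0⟩} := Algebra.subset_adjoin (by simp)
    have m2 : (⟨0, 0, 1, 0⟩ : ℍ[Kv v,a,0,(q : Kv v)]) ∈ Algebra.adjoin (Kv v) {θ, ⟨0, 0, 1, 0⟩} :=
      Algebra.subset_adjoin (by simp)
    have : x = x.re • (1 : ℍ[Kv v,a,0,(q : Kv v)]) + x.imI • θ + x.imJ • ⟨0, 0, 1, 0⟩
        + x.imK • (θ * ⟨0, 0, 1, 0⟩) := by
      ext <;> simp [hθ]
    rw [this]
    exact add_mem (add_mem (add_mem (Subalgebra.smul_mem _ (one_mem _) _)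
      (Subalgebra.smul_mem _ m1 _)) (Subalgebra.smul_mem _ m2 _))
      (Subalgebra.smul_mem _ (mul_mem m1 m2) _)
  · rw [Polynomial.map_sub, Polynomial.map_pow, map_X, map_C]
    refine X_pow_sub_C_irreducible_of_prime Nat.prime_two fun b hb => hε ?_
    obtain ⟨b, rfl⟩ := IsLocalRing.residue_surjective b
    rw [← map_pow, ← sub_eq_zero, ← map_sub, IsLocalRing.residue_eq_zero_iff] at hb
    have k1 : res (b ^ 2 - ε) = 0 := by_contra fun e => hb ((h.unit _).2 e)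
    rw [map_sub, map_pow, sub_eq_zero] at k1
    exact ⟨res b, by rw [← k1, sq]⟩
  · rw [Polynomial.map_mul, Polynomial.map_neg, map_C, hz _ h1]
    simp
  · simp [hθ2, ha]
  · have k2 : θ ^ Ideal.absNorm v.asIdeal +
        aeval θ ((- C (ε ^ m + 1) * X).map (algebraMap (Ov v) (Kv v))) = - θ := by
      rw [← h.card, Nat.card_eq_fintype_card, hm, pow_succ, pow_mul, hθ2, Polynomial.map_mul,
        Polynomial.map_neg, map_C, map_X, map_mul, map_neg, aeval_C, aeval_X, map_add, map_pow, ha,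
        map_one, map_add, map_pow, map_one]
      noncomm_ring
    rw [k2, hθ]
    ext <;> simp
  · rw [sq]
    ext <;> simp
  · rw [h.val, WithZero.log_exp]
    norm_num

theorem p_SGINV (hINVZ : S_INVZ) :
    S_SGINV := by
  rintro K _ _ v q k _ l res h x s ⟨ε, h1, rfl, rfl⟩
  have : CharZero (Kv v) := charZero_of_injective_algebraMap (algebraMap K (Kv v)).injective
  have h0 := (h.unit ε).1 h1
  rw [chk, if_neg h0]
  split_ifs with h2 h3 h3
  · norm_num at h3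
  · refine ⟨.inl rfl, fun B _ _ e => hINVZ K v B (e.trans (sy_of_isSquare
      (Nat.cast_ne_zero.2 h.prime.ne_zero) (h1.map _).ne_zero (IsSquare.map _ ?_)))⟩
    obtain ⟨r, hr⟩ := h2
    obtain ⟨r, rfl⟩ := h.surj r
    obtain ⟨b, hb, -⟩ := h.hensel (X ^ 2 - C ε) r (monic_X_pow_sub_C _ two_ne_zero)
      (by simp [hr, sq]) (by
        simpa [map_ofNat, one_add_one_eq_two] using And.intro h.two (left_ne_zero_of_mul (hr ▸ h0)))
    exact ⟨b, by rw [← sq, eq_comm, ← sub_eq_zero]; simpa using hb⟩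
  · refine ⟨.inr rfl, fun B _ _ e => ?_⟩
    obtain ⟨D, _, _, n, c, k1, k2⟩ := sginv_cyc h h0 h2
    exact ⟨D, _, _, n, c, (cl_eq.1 (e.trans (sy_comm _ _))).trans k1, k2⟩
  · exact absurd rfl h3

end Pool.Agent.P.MP_ab3ecb_nt.Inv
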