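import Pool.Agent.P.MP_ab3ecb_nt.Inv.A.Iface

/-! Step SYT of the twist project. -/

namespace Pool.Agent.P.MP_ab3ecb_nt.Inv

open Polynomial NumberField IsDedekindDomain TensorProduct Finset
open scoped Classical

section

variable {q : ℕ} {R L k : Type} [CommRing R] [Field L] [Algebra R L] [Field k] {res : R →+* k}

lemma syt_sq (h : Tame q L res) (x : R) (hx : IsUnit x) (hs : IsSquare (res x)) : IsSquare x := by
  obtain ⟨c, hc⟩ := hs
  obtain ⟨a, rfl⟩ := h.surj c
  have h0 := (h.unit x).1 hx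
  have h1 : res a ≠ 0 := fun e => h0 (by rw [hc, e, mul_zero])
  obtain ⟨b, hb, -⟩ := h.hensel (X ^ 2 - C x) a (monic_X_pow_sub_C x two_ne_zero)
    (by simp [hc, sq]) (by
      have : res ((derivative (X ^ 2 - C x : R[X])).eval a) = 2 * res a := by
        simp [one_add_one_eq_two, map_ofNat]
      rw [this]
      exact mul_ne_zero h.two h1)
  refine ⟨b, ?_⟩
  simp only [eval_sub, eval_pow, eval_X, eval_C] at hb
  linear_combination -hb

lemma syt_un {z : R} (hz : IsUnit z) : algebraMap R L z ≠ 0 := (hz.map _).ne_zero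

lemma syt_units [CharZero L] (h : Tame q L res) (x y : R) (hx : IsUnit x) (hy : IsUnit y) :
    sy (algebraMap R L x) (algebraMap R L y) = 1 := by
  have := h.fin
  have := Fintype.ofFinite k
  have h1 := (h.unit x).mp hx
  have h2 := (h.unit y).mp hy
  obtain ⟨a, b, e⟩ := FiniteField.exists_root_sum_quadratic
    (f := C (res x) * X ^ 2) (g := C (res y) * X ^ 2 - 1)
    (degree_C_mul_X_pow _ h1) (by
      rw [degree_sub_eq_left_of_degree_lt] <;> rw [degree_C_mul_X_pow _ h2]
      · rfl
      · rw [degree_one]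
        decide)
    (FiniteField.odd_card_of_char_ne_two fun e => h.two (by
      have := ringChar.spec k 2
      rw [e] at this
      exact_mod_cast this.2 dvd_rfl))
  obtain ⟨a, rfl⟩ := h.surj a
  obtain ⟨b, rfl⟩ := h.surj b
  have h3 : res (x * a ^ 2 + y * b ^ 2) = 1 := by
    simp only [eval_mul, eval_C, eval_pow, eval_X, eval_sub, eval_one] at e
    simp only [map_add, map_mul, map_pow]
    linear_combination e
  have h4 := (h.unit _).mpr (h3 ▸ one_ne_zero)
  have h5 := (syt_sq h _ h4 (h3 ▸ IsSquare.one)).map (algebraMap R L)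
  have h6 := syt_un (L := L) h4
  rw [sy_of_rep (a := algebraMap R L a) (b := algebraMap R L b) (syt_un hx) (syt_un hy)
    (by simp only [map_add, map_mul, map_pow]) h6, sy_comm]
  exact sy_of_isSquare (mul_ne_zero (mul_ne_zero h6 (syt_un hx)) (syt_un hy)) h6 h5

lemma syt_chk [Finite k] (a b : k) : chk (a * b) = chk a * chk b := by
  have := Fintype.ofFinite k
  rw [chk_eq, chk_eq, chk_eq, map_mul]

end

theorem p_SYT :
    S_SYT := by
  intro q R L k _ _ _ _ _ res h
  have := h.fin
  have hq : (q : L) ≠ 0 := Nat.cast_ne_zero.mpr h.prime.ne_zero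
  refine ⟨syt_sq h, syt_units h, ⟨1, isUnit_one, by rw [map_one, sy_one hq], by simp [chk]⟩, ?_,
    syt_chk⟩
  rintro x y s t ⟨v, h1, rfl, rfl⟩ ⟨w, h2, rfl, rfl⟩
  exact ⟨v * w, h1.mul h2, by rw [map_mul, sy_mul hq (syt_un h1) (syt_un h2)],
    by rw [map_mul, syt_chk]⟩

end Pool.Agent.P.MP_ab3ecb_nt.Inv
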