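import Pool.Agent.P.MP_ab3ecb_nt.Inv.A.Iface

/-! Step TAME of the twist project. -/

namespace Pool.Agent.P.MP_ab3ecb_nt.Inv

open Polynomial NumberField IsDedekindDomain TensorProduct Finset
open scoped Classical

variable {K : Type} [Field K] [NumberField K]

/-- an unramified prime generates a radical ideal -/
theorem tame_rad {M q : ℕ} (hd : Dual (𝓞 K) M) (hq : q.Prime) (hM : ¬ q ∣ M) {x : 𝓞 K}
    (hx : (q : 𝓞 K) ∣ x ^ 2) : (q : 𝓞 K) ∣ x := by
  have : Fact q.Prime := ⟨hq⟩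
  have hp := hd.perf (R := ZMod q) (IsUnit.mk0 _
    (mt (ZMod.intCast_zmod_eq_zero_iff_dvd _ q).mp (mt Int.natCast_dvd_natCast.mp hM)))
  have hred : IsReduced (ZMod q ⊗[ℤ] 𝓞 K) := ⟨fun z hz => hp.inj fun w =>
    (LinearMap.isNilpotent_trace_of_isNilpotent
      (((Commute.all _ _).isNilpotent_mul_right hz).map (Algebra.lmul (ZMod q) _))).eq_zero⟩
  obtain ⟨y, hy⟩ := hx
  have h0 : ((1 : ZMod q) ⊗ₜ[ℤ] x : ZMod q ⊗[ℤ] 𝓞 K) = 0 := IsNilpotent.eq_zero ⟨2, by
    rw [Algebra.TensorProduct.tmul_pow, hy, ← nsmul_eq_mul, ← natCast_zsmul, ← smul_tmul]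
    simp⟩
  have hq0 : ((q : ℕ) : 𝓞 K ⧸ Ideal.span {(q : 𝓞 K)}) = 0 := by
    rw [← map_natCast (Ideal.Quotient.mk _), Ideal.Quotient.eq_zero_iff_mem]
    exact Ideal.mem_span_singleton_self _
  have := congrArg (Algebra.TensorProduct.lift
    (ZMod.castHom ((ringChar.spec _ q).1 hq0) (𝓞 K ⧸ Ideal.span {(q : 𝓞 K)})).toIntAlgHom
    (Ideal.Quotient.mkₐ ℤ _) fun _ _ => Commute.all _ _) h0
  rw [Algebra.TensorProduct.lift_tmul, map_one, one_mul, map_zero] at this
  exact Ideal.mem_span_singleton.1 (Ideal.Quotient.eq_zero_iff_mem.1 this)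

theorem tame_int {q : ℕ} (v : Pl K) (hr : ∀ x : 𝓞 K, (q : 𝓞 K) ∣ x ^ 2 → (q : 𝓞 K) ∣ x)
    (hq : q.Prime) (hv : (q : 𝓞 K) ∈ v.asIdeal) :
    v.intValuation (q : 𝓞 K) = WithZero.exp (-1) := by
  have h0 : (q : 𝓞 K) ≠ 0 := Nat.cast_ne_zero.2 hq.ne_zero
  have h1 := (v.intValuation_le_pow_iff_mem (q : 𝓞 K) 1).2 (by simpa using hv)
  have h2 : ¬ v.intValuation (q : 𝓞 K) ≤ WithZero.exp (-(2 : ℕ) : ℤ) := fun h => by
    obtain ⟨J, hJ⟩ := (v.intValuation_le_pow_iff_dvd _ 2).1 h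
    have hJ0 : v.asIdeal * J ≠ 0 := fun e => h0 (by
      rw [← Ideal.span_singleton_eq_bot, hJ, sq, mul_assoc, e, mul_zero]; rfl)
    have h3 : v.asIdeal * J ≤ v.asIdeal ^ 2 * J := fun x hx => by
      rw [← hJ, Ideal.mem_span_singleton]
      refine hr x (Ideal.mem_span_singleton.1 ?_)
      rw [hJ]
      refine Ideal.mul_mono_right (Ideal.pow_le_self two_ne_zero) ?_
      rw [← mul_pow]
      exact Ideal.pow_mem_pow hx 2
    rw [sq, mul_assoc, ← Ideal.dvd_iff_le] at h3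
    nth_rewrite 2 [← one_mul (v.asIdeal * J)] at h3
    exact v.prime.not_isUnit (isUnit_of_dvd_one ((mul_dvd_mul_iff_right hJ0).1 h3))
  rw [← WithZero.exp_log (v.intValuation_ne_zero _ h0)] at h1 h2 ⊢
  rw [WithZero.exp_le_exp] at h1 h2
  congr 1
  omega

theorem tame_lt {x : WithZero (Multiplicative ℤ)} : x < 1 ↔ x ≤ WithZero.exp (-1) := by
  rcases eq_or_ne x 0 with rfl | h
  · simp
  rw [← WithZero.exp_log h, ← WithZero.exp_zero, WithZero.exp_lt_exp, WithZero.exp_le_exp]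
  omega

/-- the global integers are dense in the local integers -/
theorem tame_apx (v : Pl K) (x : Ov v) :
    ∃ a : 𝓞 K, Valued.v ((x - algebraMap (𝓞 K) (Ov v) a : Ov v) : Kv v) < 1 := by
  obtain ⟨d, hd⟩ := (v.denseRange_algebraMap K).exists_dist_lt (x : Kv v) one_pos
  rw [dist_eq_norm, Valued.toNormedField.norm_lt_one_iff] at hd
  have h1 : Valued.v (algebraMap K (Kv v) d) ≤ 1 := by
    rw [← sub_sub_cancel (x : Kv v) (algebraMap K (Kv v) d)]
    exact Valuation.map_sub_le _ x.2 hd.le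
  have e : ∀ y : K, Valued.v (algebraMap K (Kv v) y) = v.valuation K y :=
    v.valuedAdicCompletion_eq_valuation'
  obtain ⟨a, ha⟩ := v.exists_valuation_sub_lt_of_integer (e d ▸ h1) 1
  refine ⟨a, ?_⟩
  rw [← e, map_sub] at ha
  have : ((x - algebraMap (𝓞 K) (Ov v) a : Ov v) : Kv v) = (x - algebraMap K (Kv v) d) -
      (algebraMap K (Kv v) (algebraMap (𝓞 K) K a) - algebraMap K (Kv v) d) := by
    rw [sub_sub_sub_cancel_right]
    rfl
  rw [this]
  exact Valuation.map_sub_lt _ hd ha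

theorem tame_complete (v : Pl K) {π : Ov v} (h0 : π ≠ 0) (h1 : Valued.v (π : Kv v) < 1) :
    IsAdicComplete (Ideal.span {π}) (Ov v) := by
  have h2 : 0 < ‖(π : Kv v)‖ := norm_pos_iff.2 fun e => h0 (Subtype.ext e)
  have h3 : ‖(π : Kv v)‖ < 1 := Valued.toNormedField.norm_lt_one_iff.2 h1
  have e : ∀ n : ℕ, ((Ideal.span {π} ^ n : Ideal (Ov v)) : Set (Ov v)) =
      Subtype.val ⁻¹' Metric.closedBall (0 : Kv v) (‖(π : Kv v)‖ ^ n) := fun n => by
    ext z
    rw [Ideal.span_singleton_pow, SetLike.mem_coe, Ideal.mem_span_singleton,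
      (HeightOneSpectrum.adicCompletionIntegers.integers K v).dvd_iff_le, Set.mem_preimage,
      mem_closedBall_zero_iff, ← norm_pow, Valued.toNormedField.norm_le_iff]
    rfl
  have hA : IsAdic (Ideal.span {π}) := isAdic_iff.2 ⟨fun n => by
    rw [e]
    exact (IsUltrametricDist.isOpen_closedBall _ (pow_pos h2 n).ne').preimage
      continuous_subtype_val, fun s hs => by
    obtain ⟨t, ht, hts⟩ := (mem_nhds_subtype _ _ _).1 hs
    obtain ⟨ε, hε, h⟩ := Metric.mem_nhds_iff.1 ht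
    obtain ⟨n, hn⟩ := exists_pow_lt_of_lt_one hε h3
    exact ⟨n, e n ▸ fun z hz => hts (h (Metric.closedBall_subset_ball hn hz))⟩⟩
  exact hA.isAdicComplete_iff.2
    ⟨(Valued.isClosed_valuationSubring (Kv v)).completeSpace_coe, inferInstance⟩

theorem p_TAME :
    S_TAME := by
  intro K _ _ M q v k _ l hd h2 hM hq hv hl hk
  have hqM : ¬ q ∣ M := fun ⟨c, e⟩ => hM (by rw [e, Nat.cast_mul]; exact v.asIdeal.mul_mem_right _ hv)
  have ev : ∀ a : 𝓞 K, Valued.v ((algebraMap (𝓞 K) (Ov v) a : Ov v) : Kv v) = v.intValuation a :=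
    fun a => (v.valuedAdicCompletion_eq_valuation' _).trans (v.valuation_of_algebraMap a)
  have hval : Valued.v (q : Kv v) = WithZero.exp (-1) := by
    rw [← tame_int v (fun _ => tame_rad hd hq hqM) hq hv, ← ev,
      map_natCast (algebraMap (𝓞 K) (Ov v))]
    rfl
  have hm : ∀ z : Ov v, z ∈ IsLocalRing.maximalIdeal (Ov v) ↔ Valued.v (z : Kv v) < 1 := fun z => by
    rw [IsLocalRing.mem_maximalIdeal, mem_nonunits_iff,
      HeightOneSpectrum.adicCompletionIntegers.isUnit_iff_valued_eq_one]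
    exact ⟨fun h => lt_of_le_of_ne z.2 h, fun h => h.ne⟩
  let ρ : 𝓞 K →+* IsLocalRing.ResidueField (Ov v) :=
    (IsLocalRing.residue (Ov v)).comp (algebraMap (𝓞 K) (Ov v))
  have hρ : Function.Surjective ρ := fun y => by
    obtain ⟨x, rfl⟩ := IsLocalRing.residue_surjective y
    obtain ⟨a, ha⟩ := tame_apx v x
    refine ⟨a, (sub_eq_zero.1 ?_).symm⟩
    rw [RingHom.comp_apply, ← map_sub, IsLocalRing.residue_eq_zero_iff, hm]
    exact ha
  have kρ : RingHom.ker ρ = RingHom.ker l := by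
    ext a
    rw [hk, RingHom.mem_ker, RingHom.comp_apply, IsLocalRing.residue_eq_zero_iff, hm, ev,
      v.intValuation_lt_one_iff_mem]
  let ε : IsLocalRing.ResidueField (Ov v) ≃+* k :=
    (RingHom.quotientKerEquivOfSurjective hρ).symm.trans
      ((Ideal.quotEquivOfEq kρ).trans (RingHom.quotientKerEquivOfSurjective hl))
  have hε : ∀ a, ε (ρ a) = l a := fun a => by
    have : (RingHom.quotientKerEquivOfSurjective hρ).symm (ρ a) = Ideal.Quotient.mk _ a :=
      (RingEquiv.symm_apply_eq _).2 rfl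
    simp only [ε, RingEquiv.trans_apply, this]
    rfl
  obtain ⟨res, hres⟩ : ∃ res : Ov v →+* k, ∀ z, res z = ε (IsLocalRing.residue _ z) :=
    ⟨ε.toRingHom.comp (IsLocalRing.residue _), fun _ => rfl⟩
  have r0 : ∀ z, res z = 0 ↔ Valued.v (z : Kv v) < 1 := fun z => by
    rw [hres, EmbeddingLike.map_eq_zero_iff, IsLocalRing.residue_eq_zero_iff, hm]
  have rk : ∀ z, res z = 0 ↔ (q : Ov v) ∣ z := fun z => by
    rw [r0, (HeightOneSpectrum.adicCompletionIntegers.integers K v).dvd_iff_le, map_natCast, hval,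
      tame_lt]
    rfl
  have rc : ∀ a, res (algebraMap (𝓞 K) (Ov v) a) = l a := fun a => (hres _).trans (hε a)
  have q0 : (q : Kv v) ≠ 0 := fun e => by
    rw [e, map_zero] at hval
    exact WithZero.exp_ne_zero hval.symm
  have eqv : (𝓞 K ⧸ v.asIdeal) ≃+* k :=
    (Ideal.quotEquivOfEq hk.symm).trans (RingHom.quotientKerEquivOfSurjective hl)
  have : Finite (𝓞 K ⧸ v.asIdeal) := v.asIdeal.finiteQuotientOfFreeOfNeBot v.ne_bot
  have ru : ∀ z, IsUnit z ↔ res z ≠ 0 := fun z => by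
    rw [Ne, r0, ← hm, IsLocalRing.mem_maximalIdeal, mem_nonunits_iff, not_not]
  refine ⟨res, ⟨hq, Finite.of_equiv _ eqv.toEquiv, Subtype.val_injective,
    fun y => (hl y).elim fun a e => ⟨_, (rc a).trans e⟩, rk, ru, fun e => hM ?_,
    fun P a hP h1 h3 => ?_, fun z hz => ?_⟩, rc, ?_, hval, fun d u n hu e => ?_⟩
  · obtain ⟨c, rfl⟩ := h2
    rw [← hk, RingHom.mem_ker, map_natCast, Nat.cast_mul, Nat.cast_ofNat, e, zero_mul]
  · have := tame_complete v (π := (q : Ov v)) (fun e => q0 (congrArg Subtype.val e))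
      ((r0 _).1 ((rk _).2 dvd_rfl))
    obtain ⟨b, hb, e⟩ := HenselianRing.is_henselian (I := Ideal.span {(q : Ov v)}) P hP a
      (Ideal.mem_span_singleton.2 ((rk _).1 h1)) (((ru _).2 h3).map _)
    refine ⟨b, hb, sub_eq_zero.1 ?_⟩
    rw [← map_sub, rk]
    exact Ideal.mem_span_singleton.1 e
  · have h0 : Valued.v z ≠ 0 := (Valuation.ne_zero_iff _).2 hz
    have h1 : Valued.v (z * (q : Kv v) ^ WithZero.log (Valued.v z)) = 1 := by
      rw [map_mul, map_zpow₀, hval, ← WithZero.exp_zsmul]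
      nth_rewrite 1 [← WithZero.exp_log h0]
      rw [← WithZero.exp_add]
      simp
    refine ⟨-WithZero.log (Valued.v z), ⟨_, h1.le⟩,
      HeightOneSpectrum.adicCompletionIntegers.isUnit_iff_valued_eq_one.2 h1, ?_⟩
    change z = z * _ * _
    rw [mul_assoc, ← zpow_add₀ q0, add_neg_cancel, zpow_zero, mul_one]
  · rw [Ideal.absNorm_apply, Submodule.cardQuot_apply]
    exact (Nat.card_congr eqv.toEquiv).symm
  · have h1 := congrArg Valued.v e
    have h3 : Valued.v (algebraMap (Ov v) (Kv v) u) = 1 :=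
      HeightOneSpectrum.adicCompletionIntegers.isUnit_iff_valued_eq_one.1 hu
    have h4 : Valued.v (algebraMap K (Kv v) d) = v.valuation K d :=
      v.valuedAdicCompletion_eq_valuation' d
    rw [map_mul, h3, one_mul, map_zpow₀, hval, ← WithZero.exp_zsmul, h4] at h1
    rw [Od, h1, WithZero.log_exp]
    simp

end Pool.Agent.P.MP_ab3ecb_nt.Inv
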