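import Pool.Agent.P.MP_ab3ecb_nt.Inv.A.TestB

/-! Step TEST of the twist project. -/

namespace Pool.Agent.P.MP_ab3ecb_nt.Inv

open Polynomial NumberField IsDedekindDomain TensorProduct Finset
open scoped Classical

set_option linter.unusedSectionVars false

attribute [local instance] test_cz

variable {K F E : Type} [Field K] [NumberField K] [Field F] [Field E] {v : Pl K} {M : ℕ}
  {A : Type} [CommRing A] [Module.Free ℤ A] [Module.Finite ℤ A] [Nontrivial A]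
  {i : 𝓞 K →+* A} {H : A[X]} {V : Set (A × A)} {q : ℕ} {k : Type} [Field k]

lemma test_Xk_mul (hS : S_SYT) {R L : Type} [CommRing R] [Field L] [CharZero L] [Algebra R L]
    {res : R →+* k} (h : Tame q L res) (g : k ⊗[ℤ] A) (z w : A) :
    Xk g (z * w) = Xk g z * Xk g w := by
  rw [Xk, Xk, Xk, ← (hS q R L k res h).2.2.2.2, ← map_mul (Algebra.norm k), map_mul (inc A k)]
  exact congrArg (fun t => chk (Algebra.norm k t)) (pj_mul (ide_idem g) _ _)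

lemma test_Xk_sq (g : k ⊗[ℤ] A) {z : A} (hz : ((Algebra.norm ℤ z : ℤ) : k) ≠ 0) :
    Xk g z * Xk g z = 1 :=
  test_chk_sq ((isUnit_pj (ide_idem g) (isUnit_inc (IsUnit.mk0 _ hz))).map (Algebra.norm k)).ne_zero

lemma test_sign {R : Type} [CommRing R] {res : R →+* k} {e : R ⊗[ℤ] A} {g : k ⊗[ℤ] A}
    (h : IsE (tm A res e) g) (α : A) :
    chk (res (Algebra.norm R (pj e (inc A R α)))) = Xk g α := by
  rw [← norm_tm, map_pj, tm_inc, Xk, h.ide_eq, pj]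

/-- The shape of the local value of the test function. -/
def test_L (Γ : E ⊗[ℤ] A) (P : Pt E (Kv v)) (q : ℕ) (res : Ov v →+* k) (i : 𝓞 K →+* A) (H : A[X])
    (t : k) (V : Set (A × A)) (o : Prop) : Prop :=
  ∃ (U : P.O ⊗[ℤ] A) (e1 e' g : Ov v ⊗[ℤ] A), IsUnit U ∧ IsSquare (Γ * tm A P.O.subtype U) ∧
    IsD ((algebraMap (Ov v) _).comp (algebraMap (𝓞 K) (Ov v))) ((inc A (Ov v)).comp i) e1 ∧
    e' * e' = e' ∧ e' * e1 = e' ∧ IsUnit g ∧ pj e1 g = g ∧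
    (∀ α, IsUnit α → cp (tm A P.φ U) α =
      cp (tm A (algebraMap (Ov v) (Kv v)) (pj e' q * g)) α) ∧
    (¬ o → e' = 0) ∧ (o → IsE (tm A res e') (evT H t) ∧
      ∀ φ : A →+* Ov v, φ.comp i = algebraMap (𝓞 K) (Ov v) →
        H.eval₂ (res.comp φ) t = 0 → ∀ z ∈ V, res (φ z.1) = t →
        lft φ e' = 0 ∧ res (φ z.2) ≠ 0 ∧ chk (res (lft φ g)) = chk (res (φ z.2)))

variable {Γ : E ⊗[ℤ] A} {P : Pt E (Kv v)} {o : Prop} {α : A}

lemma test_away (hSG : S_SGINV) (hCP : S_CP) (hD : S_CPD) {l : 𝓞 K →+* k} {res : Ov v →+* k}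
    (h : TameV v q l res) {t : k} (hL : test_L Γ P q res i H t V o) (hA : Dual A M) (h0 : M ≠ 0)
    (hM : IsUnit ((M : ℤ) : Ov v)) (hα : Algebra.norm ℤ α ≠ 0) (hu : ∀ e : Ov v ⊗[ℤ] A,
      IsD ((algebraMap (Ov v) _).comp (algebraMap (𝓞 K) (Ov v))) ((inc A (Ov v)).comp i) e →
      IsUnit (pj e (inc A (Ov v) α))) : LocK Γ α v P (if o then Xk (evT H t) α else 1) := by
  obtain ⟨U, e1, e', g, k1, k2, k3, k4, k5, k6, k7, k8, k9, k10⟩ := hL
  have m1 := ((hCP q (Ov v) (Kv v) k res h.toTame A M hA hM e' g _ k4 k6).1 (hu e1 k3)).2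
  have m2 : pj e' (pj e1 (inc A (Ov v) α)) = pj e' (inc A (Ov v) α) := by
    unfold pj
    linear_combination (inc A (Ov v) α - 1) * k5
  have m3 : chk (res (Algebra.norm (Ov v) (pj e' (inc A (Ov v) α)))) =
      if o then Xk (evT H t) α else 1 := by
    split_ifs with ho
    · exact test_sign (k10 ho).1 α
    · rw [k9 ho, show pj 0 (inc A (Ov v) α) = 1 by simp [pj], map_one, map_one, test_chk_one]
  have m4 : pj e1 (pj e' q * g) = pj e' q * g := by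
    rw [pj_mul k3.1, k7]
    unfold pj
    linear_combination (q - 1) * g * k5
  have m5 : IsUnit (inc A (Kv v) α) := isUnit_inc (IsUnit.mk0 _ (Int.cast_ne_zero.2 hα))
  have m6 : IsUnit (tm A (algebraMap (Ov v) (Kv v)) (pj e' q * g)) := by
    rw [map_mul, map_pj, map_natCast, ← map_natCast (algebraMap (Kv v) _)]
    exact (isUnit_pj (by rw [← map_mul, k4])
      ((IsUnit.mk0 _ (test_qne h.toTame)).map _)).mul (k6.map _)
  have m7 := hD (Kv v) A M hA (by exact_mod_cast h0) (tm A (algebraMap (Ov v) (Kv v)) e1) _ _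
    (by rw [← map_mul, k3.1]) m6 m5
  rw [← map_pj, m4] at m7
  rw [m2, m3, map_pj _ e1, tm_inc, ← m7, ← k8 _ m5] at m1
  obtain ⟨m8, m9⟩ := hSG K v q k l res h _ _ m1
  exact ⟨U, k1, k2, m8, m9⟩

lemma test_at (hSG : S_SGINV) (hLF : S_LF) {p : ℕ} [Fact p.Prime] {lb : A →+* ZMod p}
    {res : Ov v →+* ZMod p} (h : TameV v p (lb.comp i) res) {t : ZMod p}
    (hL : test_L Γ P p res i H t V o) (ho : o) (hO : Dual (𝓞 K) M) (hA : Dual A M) (h0 : M ≠ 0)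
    (hp : ¬ p ∣ M) (hM : (M : 𝓞 K) ∉ v.asIdeal) {π β θ n : A} (hπ : Lf M p lb π)
    (hβ : ¬ (p : ℤ) ∣ Algebra.norm ℤ β) (h1 : H.eval₂ lb t = 0) (h2 : (θ, n) ∈ V)
    (h3 : lb θ = t) : LocK Γ (π * β) v P (Xe p (evT H t) (π * β) * chi p (lb n)) := by
  obtain ⟨U, e1, e', g, k1, k2, -, k4, -, k6, -, k8, -, k10⟩ := hL
  obtain ⟨φ, rfl, m2, m3⟩ := (hLF K M A i hO hA p lb π h.prime hp hπ v hM).2 res h
  obtain ⟨m4, -, m5⟩ := (k10 ho).2 φ m2 h1 _ h2 h3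
  have m1 := m3 β hβ e' g k4 k6 m4
  have m6 : IsUnit (inc A (Kv v) (π * β)) := isUnit_inc (IsUnit.mk0 _ (Int.cast_ne_zero.2 (by
    rw [map_mul]
    exact mul_ne_zero (hπ.ne_zero h.prime h0) fun e => hβ (e ▸ dvd_zero _))))
  rw [test_sign (k10 ho).1, m5, ← k8 _ m6, ← Xe_eq_Xk h.prime, ← chi_eq_chk h.prime] at m1
  obtain ⟨m8, m9⟩ := hSG K v p _ _ res h _ _ m1
  exact ⟨U, k1, k2, m8, m9⟩

lemma test_mem [CharZero E] (σ : K →+* E) (O : ValuationSubring E) (hO : ∀ q : ℚ, (q : E) ∈ O)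
    (c : K) : σ c ∈ O := by
  obtain ⟨p, h1, h2⟩ := Algebra.IsIntegral.isIntegral (R := ℚ) c
  have h3 : IsIntegral O (σ c) := ⟨p.map ((Rat.castHom E).codRestrict O hO), h1.map _, by
    rw [eval₂_map, RingHom.ext_rat (RingHom.comp _ _) (σ.comp (algebraMap ℚ K)), ← hom_eval₂, h2,
      map_zero]⟩
  obtain ⟨y, hy⟩ := IsIntegrallyClosed.isIntegral_iff.1 h3
  exact hy ▸ y.2

lemma test_unit (σ : K →+* E) (O : ValuationSubring E) (hO : ∀ c, σ c ∈ O) {c : K} (hc : c ≠ 0) :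
    IsUnit (⟨σ c, hO c⟩ : O) :=
  IsUnit.of_mul_eq_one ⟨_, hO c⁻¹⟩ (Subtype.ext (by
    change σ c * σ c⁻¹ = 1
    rw [← map_mul, mul_inv_cancel₀ hc, map_one]))

lemma test_tame (hT : S_TAME) (hO : Dual (𝓞 K) M) (h2 : 2 ∣ M) (hv : (M : 𝓞 K) ∉ v.asIdeal) :
    letI := Ideal.Quotient.field v.asIdeal
    ∃ (r : ℕ) (res : Ov v →+* 𝓞 K ⧸ v.asIdeal), TameV v r (Ideal.Quotient.mk v.asIdeal) res := by
  obtain ⟨r, -, -, h3, h4, -⟩ := Ideal.exists_prime_and_absNorm_eq_pow v.asIdeal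
  let := Ideal.Quotient.field v.asIdeal
  exact ⟨r, hT K M r v _ (Ideal.Quotient.mk v.asIdeal) hO h2 hv h4 h3
    Ideal.Quotient.mk_surjective Ideal.mk_ker⟩

lemma test_mem_pl (z : GP K) (n : ℕ) : (n : 𝓞 K) ∈ z.pl.asIdeal ↔ z.1.1 ∣ n := by
  rw [GP.mem_pl, map_natCast, ZMod.natCast_eq_zero_iff]

lemma test_inj {d : K} {s : Finset (GP K)} {J : Finset (Pl K)} (h : Dec M d s J) {z w : GP K}
    (hz : z ∈ s) (hw : w ∈ s) (e : z.pl = w.pl) : z = w := by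
  have := (test_mem_pl z z.1.1).2 dvd_rfl
  rw [e, test_mem_pl, Nat.prime_dvd_prime_iff_eq w.1.2 z.1.2] at this
  exact h.inj z hz w hw (Subtype.ext this.symm)

theorem p_TEST (hTAME : S_TAME) (hSGINV : S_SGINV) (hINVZ : S_INVZ) (hSYT : S_SYT) (hCP : S_CP) (hCPD : S_CPD) (hLF : S_LF) (hPF : S_PF) (hEXE : S_EXE) :
    S_TEST := by
  rintro K F _ _ _ ι f x Pz F0 F1 M d hf hx hd hP hC0 ⟨E, _, _, j, y, ⟨hy, -⟩, P, hB⟩
  have y0 : y ≠ 0 := fun e => by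
    rw [e, zero_pow two_ne_zero, mul_zero, eq_comm, _root_.map_eq_zero] at hy
    exact hf hy
  choose W ρ κ Ψ hS using fun v => test_W (M := M) (P.fin v)
  have hMu : ∀ v : Pl K, (M : 𝓞 K) ∉ v.asIdeal → IsUnit ((M : ℤ) : Ov v) := fun v hv => by
    let := Ideal.Quotient.field v.asIdeal
    obtain ⟨r, res, h⟩ := test_tame hTAME hP.du hP.two hv
    rw [h.unit, Int.cast_natCast, map_natCast, ← map_natCast (Ideal.Quotient.mk v.asIdeal)]
    exact mt Ideal.Quotient.eq_zero_iff_mem.1 hv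
  have ha : ∀ v : Pl K, ∃ a : 𝓞 K, (M : 𝓞 K) ∉ v.asIdeal → Od v d → F0.eval a ∈ v.asIdeal ∧
      ∀ b : W v, (b : F) = x → ¬ IsUnit (Ψ v b - algebraMap (𝓞 K) (Ov v) a) := fun v => by
    by_cases h : (M : 𝓞 K) ∉ v.asIdeal ∧ Od v d
    · let := Ideal.Quotient.field v.asIdeal
      obtain ⟨r, res, h1⟩ := test_tame hTAME hP.du hP.two h.1
      obtain ⟨a, h2, h3⟩ := test_a h1 Ideal.Quotient.mk_surjective hd (hS v (hMu v h.1)) y0 hy
        hC0 h.2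
      exact ⟨a, fun _ _ => ⟨Ideal.Quotient.eq_zero_iff_mem.1 h2, h3⟩⟩
    · exact ⟨0, fun h1 h2 => absurd ⟨h1, h2⟩ h⟩
  choose a ha using ha
  refine ⟨a, fun v h1 h2 => (ha v h1 h2).1, fun A _ _ _ _ i G G' γ V hA hs hG hC s J hD => ?_⟩
  obtain ⟨e, he⟩ := exists_isD hP.du (B := E ⊗[ℤ] A) (by
    simpa using (IsUnit.mk0 ((M : ℤ) : E) (by exact_mod_cast hP.M0)).map (algebraMap E (E ⊗[ℤ] A)))
    ((algebraMap E _).comp (j.comp (ι.comp (algebraMap (𝓞 K) K)))) ((inc A E).comp i)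
  set H := G' * F1.map i with hH
  set Γ := pj e (tm A j γ) with hΓ
  have hL : ∀ v : Pl K, (M : 𝓞 K) ∉ v.asIdeal → ∀ (q : ℕ) (k : Type) [Field k] (l : 𝓞 K →+* k)
      (res : Ov v →+* k), TameV v q l res →
      test_L Γ (P.fin v).toPt q res i H (l (a v)) V (Od v d) := fun v hv q k _ l res h =>
    test_loc hEXE h hd (hS v (hMu v hv)) y0 hy hP hx hs hG hC he fun ho => (ha v hv ho).2
  have hg : ∀ z ∈ s, (M : 𝓞 K) ∉ z.pl.asIdeal := fun z hz => by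
    rw [test_mem_pl]; exact hD.good z hz
  have ho : ∀ z ∈ s, Od z.pl d := fun z hz => (hD.od _ (hg z hz)).2 (Or.inr ⟨z, hz, rfl⟩)
  have hz0 : ∀ z ∈ s, ∀ [Fact z.1.1.Prime], ∃ res : Ov z.pl →+* ZMod z.1.1,
      TameV z.pl z.1.1 z.2 res := fun z hz _ =>
    hTAME K M z.1.1 z.pl _ z.2 hP.du hP.two (hg z hz) z.1.2 ((test_mem_pl z _).2 dvd_rfl)
      (ZMod.ringHom_surjective _) rfl
  have hat : ∀ z ∈ s, ∀ (lb : A →+* ZMod z.1.1) (π θ n β : A), Lf M z.1.1 lb π → lb.comp i = z.2 →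
      H.eval₂ lb (z.2 (a z.pl)) = 0 → (θ, n) ∈ V → lb θ = z.2 (a z.pl) →
      ¬ (z.1.1 : ℤ) ∣ Algebra.norm ℤ β → LocK Γ (π * β) z.pl (P.fin z.pl).toPt
        (Xe z.1.1 (evT H (z.2 (a z.pl))) (π * β) * chi z.1.1 (lb n)) := by
    intro z hz lb π θ n β h1 h2 h3 h4 h5 h6
    have : Fact z.1.1.Prime := ⟨z.1.2⟩
    obtain ⟨res, h⟩ := hz0 z hz
    exact test_at hSGINV hLF (h2.symm ▸ h) (hL _ (hg z hz) _ _ _ res h) (ho z hz) hP.du hA hP.M0
      (hD.good z hz) (hg z hz) h1 h6 h3 h4 h5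
  have hnd : ∀ z ∈ s, ∀ w ∈ s, w ≠ z → ∀ (lb : A →+* ZMod z.1.1) (π : A), Lf M z.1.1 lb π →
      ¬ (w.1.1 : ℤ) ∣ Algebra.norm ℤ π := fun z hz w hw h lb π h1 =>
    h1.not_dvd z.1.2 w.1.2 (hD.good w hw) fun e => h (hD.inj w hw z hz (Subtype.ext e))
  intro z hz lb π θ n h1 h2 h3 h4 h5
  refine ⟨?_, fun z' hz' lb' π' θ' n' h1' h2' h3' h4' h5' hne hb => ?_⟩
  · obtain ⟨-, -, -, k1, -⟩ := hat z hz lb π θ n 1 h1 h2 h3 h4 h5 (by
      rw [map_one]; exact mt isUnit_of_dvd_one (Nat.prime_iff_prime_int.mp z.1.2).not_isUnit)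
    rw [mul_one, ← mul_self_eq_one_iff] at k1
    have k0 : ∀ b c t : ℤ, b * b = 1 → c * c = 1 → t * t = 1 → b * c * t * (b * c * t) = 1 :=
      fun b c t e1 e2 e3 => by linear_combination c * c * t * t * e1 + t * t * e2 + e3
    refine k0 _ _ _ k1 (prod_mul_distrib.symm.trans (prod_eq_one fun w hw => Xe_sq w.1.2 _
      (hnd z hz w (mem_of_mem_erase hw) (ne_of_mem_erase hw) lb π h1)))
      (prod_mul_distrib.symm.trans (prod_eq_one fun v hv => ?_))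
    let := Ideal.Quotient.field v.asIdeal
    obtain ⟨⟨m, ⟨c, k2⟩, k3⟩, -⟩ := h1
    refine test_Xk_sq _ ?_
    have k4 : ∀ r : ℕ, (r : 𝓞 K) ∉ v.asIdeal → ((r : ℤ) : 𝓞 K ⧸ v.asIdeal) ≠ 0 := fun r hr => by
      rw [Int.cast_natCast, ← map_natCast (Ideal.Quotient.mk v.asIdeal)]
      exact mt Ideal.Quotient.eq_zero_iff_mem.1 hr
    have k5 := k4 M (hD.junk v hv).1
    rw [k2, Int.cast_mul] at k5
    rw [k3, Int.cast_mul]
    exact mul_ne_zero (k4 _ ((hD.junk v hv).2 z hz)) (left_ne_zero_of_mul k5)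
  have hN : Algebra.norm ℤ (π * π') ≠ 0 := by
    rw [map_mul]; exact mul_ne_zero (h1.ne_zero z.1.2 hP.M0) (h1'.ne_zero z'.1.2 hP.M0)
  have haw : ∀ v : Pl K, (M : 𝓞 K) ∉ v.asIdeal → z.pl ≠ v → z'.pl ≠ v →
      ∀ (q : ℕ) (k : Type) [Field k] (l : 𝓞 K →+* k) (res : Ov v →+* k), TameV v q l res →
      LocK Γ (π * π') v (P.fin v).toPt (if Od v d then
        Xk (evT H (l (a v))) π * Xk (evT H (l (a v))) π' else 1) := by
    intro v hv n1 n2 q k _ l res h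
    rw [← test_Xk_mul hSYT h.toTame]
    refine test_away hSGINV hCP hCPD h (hL v hv q k l res h) hA hP.M0 (hMu v hv) hN fun e he => ?_
    rw [map_mul, pj_mul he.1]
    exact ((hLF K M A i hP.du hA _ lb π z.1.2 (hD.good z hz) h1 v hv).1
      (fun e => n1 (HeightOneSpectrum.ext (by rwa [h2] at e))) e he).mul
      ((hLF K M A i hP.du hA _ lb' π' z'.1.2 (hD.good z' hz') h1' v hv).1
        (fun e => n2 (HeightOneSpectrum.ext (by rwa [h2'] at e))) e he)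
  have hJ : ∀ w ∈ s, w.pl ∉ J := fun w hw h => (hD.junk _ h).2 w hw ((test_mem_pl w _).2 dvd_rfl)
  have hsg : ∀ v : Pl K, ∃ t : ℤ, (∀ w ∈ s, w.pl = v →
      t = (Xe w.1.1 (evT H (w.2 (a w.pl))) π * if w = z then chi z.1.1 (lb n) else 1) *
        (Xe w.1.1 (evT H (w.2 (a w.pl))) π' * if w = z' then chi z'.1.1 (lb' n') else 1)) ∧
      (v ∈ J → t = Xk (evT H (Ideal.Quotient.mk v.asIdeal (a v))) π *
        Xk (evT H (Ideal.Quotient.mk v.asIdeal (a v))) π') := fun v => by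
    by_cases h : ∃ w ∈ s, w.pl = v
    · obtain ⟨w, hw, rfl⟩ := h
      exact ⟨_, fun w' hw' e => by rw [test_inj hD hw' hw e], fun h => absurd h (hJ w hw)⟩
    · exact ⟨_, fun w hw e => absurd ⟨w, hw, e⟩ h, fun _ => rfl⟩
  choose sgn g1 g2 using hsg
  have key := hPF K E (j.comp ι) P hB A Γ (π * π') M hP.M0 hA (isUnit_pj he.1 (hC.1.map _)) hN hb
    (fun O hO => ?_) (s.image GP.pl ∪ J) sgn (fun v hv => ?_) fun v hv => ?_
  · rw [prod_union (disjoint_left.2 fun v hv => by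
      obtain ⟨w, hw, rfl⟩ := mem_image.1 hv
      exact hJ w hw), prod_image fun w hw w' hw' => test_inj hD hw hw',
      prod_congr rfl fun w hw => g1 _ w hw rfl, prod_congr rfl g2] at key
    simp only [prod_mul_distrib, prod_ite_eq', hz, hz', if_true] at key
    rw [← mul_prod_erase _ _ hz, ← mul_prod_erase _ _ hz'] at key
    rw [tvK, tvK, ← key]
    ring
  · have m1 := test_mem (j.comp ι) O hO
    have m2 : ∀ c, ι c ∈ O.comap j := m1
    obtain ⟨_, u, u', -, -, k1, k2, k3, -, k5, -⟩ := test_gen (D := ⟨_, m1 d⟩) (W := O.comap j)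
      (κ := (j.comp (O.comap j).subtype).codRestrict O fun w => w.2)
      (ρ := (ι.comp (algebraMap (𝓞 K) K)).codRestrict _ fun c => m2 _) hP hx hs hG hC y0
      (test_unit _ O m1 hd) hy he (fun _ => rfl) (fun _ => rfl) (by
        have := test_unit ι _ m2 (c := (M : ℤ)) (by exact_mod_cast hP.M0)
        rwa [show (⟨_, m2 _⟩ : O.comap j) = (M : ℤ) from Subtype.ext (map_intCast ι _)] at this)
    exact ⟨_, ((isUnit_pj k1.1 k2).map _).mul k3, k5⟩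
  · rcases mem_union.1 hv with hv | hv
    · obtain ⟨w, hw, rfl⟩ := mem_image.1 hv
      exact hg w hw
    · exact (hD.junk v hv).1
  by_cases h : ∃ w ∈ s, w.pl = v
  · obtain ⟨w, hw, rfl⟩ := h
    rw [if_pos (mem_union_left _ (mem_image_of_mem _ hw)), g1 _ w hw rfl]
    by_cases e1 : w = z
    · subst e1
      rw [if_pos rfl, if_neg hne, mul_one, mul_right_comm, ← Xe_mul w.1.2]
      exact hat w hw lb π θ n π' h1 h2 h3 h4 h5 (hnd z' hz' w hw hne lb' π' h1')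
    by_cases e2 : w = z'
    · subst e2
      rw [if_pos rfl, if_neg e1, mul_one, ← mul_assoc, ← Xe_mul w.1.2, mul_comm π]
      exact hat w hw lb' π' θ' n' π h1' h2' h3' h4' h5' (hnd z hz w hw e1 lb π h1)
    have : Fact w.1.1.Prime := ⟨w.1.2⟩
    obtain ⟨res, h⟩ := hz0 w hw
    have k1 := haw _ hv (fun e => e1 (test_inj hD hw hz e.symm))
      (fun e => e2 (test_inj hD hw hz' e.symm)) _ _ _ res h
    rw [if_pos (ho w hw)] at k1
    rw [if_neg e1, if_neg e2, mul_one, mul_one, Xe_eq_Xk w.1.2, Xe_eq_Xk w.1.2]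
    exact k1
  let := Ideal.Quotient.field v.asIdeal
  obtain ⟨r, res, k1⟩ := test_tame hTAME hP.du hP.two hv
  have k2 := haw v hv (fun e => h ⟨z, hz, e⟩) (fun e => h ⟨z', hz', e⟩) _ _ _ res k1
  by_cases hJ : v ∈ J
  · rw [if_pos ((hD.od v hv).2 (Or.inl hJ))] at k2
    rw [if_pos (mem_union_right _ hJ), g2 v hJ]
    exact k2
  · rw [if_neg fun e => ((hD.od v hv).1 e).elim hJ h] at k2
    rwa [if_neg fun e => (mem_union.1 e).elim (fun e => h (mem_image.1 e)) hJ]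

end Pool.Agent.P.MP_ab3ecb_nt.Inv
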