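import Pool.Agent.P.MP_ab3ecb_nt.Inv.A.Iface

/-! Step TEST of the twist project: the representatives of the test function. -/

namespace Pool.Agent.P.MP_ab3ecb_nt.Inv

open Polynomial NumberField IsDedekindDomain TensorProduct Finset
open scoped Classical

set_option linter.unusedSectionVars false

lemma test_eval {O B : Type} [CommRing O] [CommRing B] {a b : O →+* B} {e : B} (h : IsD a b e)
    (P : O[X]) (x : B) : e * P.eval₂ a x = e * P.eval₂ b x := by
  induction P using Polynomial.induction_on' with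
  | add p q hp hq => rw [eval₂_add, eval₂_add, mul_add, mul_add, hp, hq]
  | monomial n c => rw [eval₂_monomial, eval₂_monomial, ← mul_assoc, h.2.1, mul_assoc]

lemma test_pj_pj {B : Type} [CommRing B] {e : B} (he : e * e = e) (u : B) :
    pj e (pj e u) = pj e u := by
  unfold pj
  linear_combination (u - 1) * he

variable {O A R S : Type} [CommRing O] [CommRing A] [Module.Free ℤ A] [Module.Finite ℤ A]
  [Nontrivial A] [CommRing R] [CommRing S] {i : O →+* A} {Pz : ℤ[X]} {F0 F1 : O[X]} {M : ℕ} {G G' H : A[X]}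

lemma test_tm_tm {T : Type} [CommRing T] (φ : R →+* S) (ψ : S →+* T) (z : R ⊗[ℤ] A) :
    tm A ψ (tm A φ z) = tm A (ψ.comp φ) z := by
  induction z with
  | zero => simp
  | add x y h1 h2 => simp only [map_add, h1, h2]
  | tmul r a => rfl

lemma test_ev (φ : R →+* S) (H : A[X]) (x : R) : tm A φ (evT H x) = evT H (φ x) := tm_eval φ H x

lemma test_c1 (ρ : O →+* R) (φ : R →+* S) :
    (tm A φ).comp ((algebraMap R _).comp ρ) = (algebraMap S _).comp (φ.comp ρ) := rfl

lemma test_c2 (i : O →+* A) (φ : R →+* S) :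
    (tm A φ).comp ((inc A R).comp i) = (inc A S).comp i := by
  rw [← RingHom.comp_assoc, tm_comp]

lemma test_isD {ρ : O →+* R} {e : R ⊗[ℤ] A}
    (h : IsD ((algebraMap R _).comp ρ) ((inc A R).comp i) e) (φ : R →+* S) :
    IsD ((algebraMap S _).comp (φ.comp ρ)) ((inc A S).comp i) (tm A φ e) := by
  have := h.map (tm A φ)
  rwa [test_c1, test_c2] at this

lemma test_dT {ρ : O →+* R} {z : R ⊗[ℤ] A} (h : z ∈ dT ρ i) (φ : R →+* S) :
    tm A φ z ∈ dT (φ.comp ρ) i := by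
  have := map_dI (tm A φ) h
  rwa [test_c1, test_c2] at this

variable {ρ : O →+* R} {e u : R ⊗[ℤ] A} {a D η : R}

lemma test_xy (he : IsD ((algebraMap R _).comp ρ) ((inc A R).comp i) e) (hG : G * G' = F0.map i)
    (hη : η ^ 2 = D * F0.eval₂ ρ a) :
    pj e (evT G a) * (e * (algebraMap R _ D * evT G' a) + (1 - e) * algebraMap R _ η ^ 2) =
      algebraMap R _ η ^ 2 := by
  have h1 : evT G a * evT G' a = F0.eval₂ ((inc A R).comp i) (algebraMap R _ a) := by
    rw [← eval₂_mul, hG, eval₂_map]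
  have h2 := test_eval he F0 (algebraMap R _ a)
  have h3 := congrArg (algebraMap R (R ⊗[ℤ] A)) hη
  rw [map_pow, map_mul, hom_eval₂] at h3
  rw [← h1] at h2
  unfold pj
  linear_combination (algebraMap R _ D * evT G a * evT G' a - algebraMap R _ D * evT G' a -
    evT G a * algebraMap R _ η ^ 2 + algebraMap R _ η ^ 2) * he.1 - algebraMap R _ D * h2 - e * h3

lemma test_cop (he : e * e = e) (hs : Spl Pz M G (G' * H)) (hM : IsUnit ((M : ℤ) : R))
    (hD : IsUnit D) : IsCoprime (pj e (evT G a))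
      (e * (algebraMap R _ D * evT G' a) + (1 - e) * algebraMap R _ η ^ 2) := by
  obtain ⟨U, V, h⟩ := hs.bez
  have h1 := congrArg (eval₂ (inc A R) (algebraMap R _ a)) h
  rw [eval₂_add, eval₂_mul, eval₂_mul, eval₂_mul, eval₂_C, map_intCast] at h1
  obtain ⟨c, hc⟩ := (hM.map (algebraMap R (R ⊗[ℤ] A))).exists_right_inv
  obtain ⟨b, hb⟩ := (hD.map (algebraMap R (R ⊗[ℤ] A))).exists_right_inv
  rw [map_intCast] at hc
  refine ⟨e * c * evT U a + (1 - e), e * c * b * evT V a * evT H a, ?_⟩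
  unfold pj
  linear_combination (c * evT U a * evT G a - c * evT U a - evT G a + 1 +
      c * b * evT V a * evT H a * (algebraMap R _ D * evT G' a - algebraMap R _ η ^ 2)) * he +
    e * c * h1 + e * hc + e * c * evT V a * evT H a * evT G' a * hb

lemma test_pj (he : e * e = e) (h : RelD e u G G' a D η) : RelD e (pj e u) G G' a D η := by
  obtain ⟨⟨s, hs⟩, t, ht⟩ := h
  refine ⟨⟨pj e s, ?_⟩, e * t + (1 - e) * algebraMap R _ η, ?_⟩
  · rw [← test_pj_pj he (evT G a), ← pj_mul he, hs, pj_mul he]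
  · unfold pj
    linear_combination e * ht + (u * algebraMap R _ η ^ 2 - t ^ 2 + 2 * t * algebraMap R _ η -
      algebraMap R _ D * evT G' a - u * algebraMap R _ η ^ 2) * he

lemma test_rel [IsLocalRing R] (he : IsD ((algebraMap R _).comp ρ) ((inc A R).comp i) e)
    (hs : Spl Pz M G (G' * H)) (hG : G * G' = F0.map i) (hM : IsUnit ((M : ℤ) : R))
    (hD : IsUnit D) (hη : η ^ 2 = D * F0.eval₂ ρ a) :
    ∃ u, IsUnit u ∧ pj e u = u ∧ RelD e u G G' a D η := by
  obtain ⟨u, h1, h2⟩ := exists_rel (test_xy he hG hη) (test_cop he.1 hs hM hD)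
  exact ⟨_, isUnit_pj he.1 h1, test_pj_pj he.1 u, test_pj he.1 h2⟩

lemma test_map (h : RelD e u G G' a D η) (φ : R →+* S) :
    RelD (tm A φ e) (tm A φ u) G G' (φ a) (φ D) (φ η) := by
  have := Rel.map (tm A φ) h
  simpa only [RelD, map_pj, map_add, map_mul, map_sub, map_one, map_pow, tm_alg, test_ev]
    using this

lemma test_scale (h : RelD e u G G' a D η) (t : R) : RelD e u G G' a (t ^ 2 * D) (t * η) := by
  obtain ⟨h1, s, hs⟩ := h
  refine ⟨h1, algebraMap R _ t * s, ?_⟩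
  simp only [map_mul, map_pow]
  linear_combination algebraMap R _ t ^ 2 * hs

variable {F E : Type} [Field F] [Field E] {f x : F} {j : F →+* E} {y : E}
  {T : ValuationSubring E} {W : ValuationSubring F} {κ : W →+* T}

lemma test_root {D : T} (hy : y ≠ 0) (hf : D * y ^ 2 = j f) (h2 : ∀ w, (κ w : E) = j w) {c : W}
    (hc : IsSquare (f * c)) : ∃ η : T, η ^ 2 = D * κ c := by
  obtain ⟨s, hs⟩ := hc
  have h3 : (j s / y) ^ 2 = ((D * κ c : T) : E) := by
    have := congrArg j hs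
    rw [map_mul, map_mul, ← hf, ← h2] at this
    rw [div_pow, div_eq_iff (pow_ne_zero 2 hy)]
    push_cast
    linear_combination -this
  exact ⟨⟨_, mem_of_sq_mem T (h3 ▸ Subtype.property _)⟩, Subtype.ext h3⟩

lemma test_coe {ρ0 : O →+* F} {ρ : O →+* W} (h1 : ∀ z, (ρ z : F) = ρ0 z) (P : O[X]) (a : W) :
    ((P.eval₂ ρ a : W) : F) = P.eval₂ ρ0 a := by
  have := hom_eval₂ P ρ W.subtype a
  rwa [show W.subtype.comp ρ = ρ0 from RingHom.ext h1] at this

variable [Module.Free ℤ O] [Module.Finite ℤ O] [Nontrivial O]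

lemma test_gen {ρ0 : O →+* F} {γ : F ⊗[ℤ] A} {V : Set (A × A)} (hP : Pol Pz F0 F1 M)
    (hx : aeval x Pz ≠ 0) (hs : Spl Pz M G (G' * H)) (hG : G * G' = F0.map i)
    (hC : Cert ρ0 f x F0 F1 M i G γ V) {D : T} (hy : y ≠ 0) (hD : IsUnit D)
    (hf : D * y ^ 2 = j f) {e : E ⊗[ℤ] A}
    (he : IsD ((algebraMap E _).comp (j.comp ρ0)) ((inc A E).comp i) e) {ρ : O →+* W}
    (h1 : ∀ z, (ρ z : F) = ρ0 z) (h2 : ∀ w, (κ w : E) = j w) (hM : IsUnit ((M : ℤ) : W)) :
    ∃ (e' u : W ⊗[ℤ] A) (u' : T ⊗[ℤ] A) (w : W) (η : T),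
      IsD ((algebraMap W _).comp ρ) ((inc A W).comp i) e' ∧ IsUnit u ∧ IsUnit u' ∧ IsUnit w ∧
      IsSquare (pj e (tm A j γ) * tm A T.subtype (tm A κ (pj e' u) * u')) ∧
      ((u' = 1 ∧ η ^ 2 = D * κ w) ∨ ∃ a : W, (a : F) = x ∧ η ^ 2 = D * κ (w * F0.eval₂ ρ a) ∧
        RelD (tm A κ e') u' G G' (κ a) (D * κ w) η ∧
        ∀ z ∈ V, ∀ (k : Type) [Field k] (μ : W ⊗[ℤ] A →+* k), (∀ b ∈ dT ρ i, μ b = 0) →
          μ (algebraMap W _ a) = μ (inc A W z.1) →
          μ (inc A W z.2) ≠ 0 ∧ IsSquare (μ (u * evT G a * inc A W z.2))) := by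
  obtain ⟨e', he'⟩ := exists_isD hP.du (by simpa using hM.map (algebraMap W (W ⊗[ℤ] A)))
    ((algebraMap W _).comp ρ) ((inc A W).comp i)
  have c1 : T.subtype.comp κ = j.comp W.subtype := RingHom.ext h2
  have c2 : W.subtype.comp ρ = ρ0 := RingHom.ext h1
  have c3 : tm A (j.comp W.subtype) e' = e := by
    refine (test_isD he' _).unique ?_
    rwa [RingHom.comp_assoc, c2]
  have key : ∀ u s, γ * tm A W.subtype u - s * s ∈ dT ρ0 i →
      IsSquare (pj e (tm A j γ) * tm A T.subtype (tm A κ (pj e' u))) := fun u s h => by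
    have h3 := test_dT h j
    rw [map_sub, map_mul, map_mul, test_tm_tm] at h3
    rw [test_tm_tm, c1, map_pj, c3, ← pj_mul he.1]
    exact he.isSquare h3
  rcases hC.2 W ρ h1 hM with ⟨w, u, k1, k2, k3, s, k4⟩ | ⟨a, w, u, k0, -, k1, k2, k3, ⟨s, k4⟩, k5⟩
  · obtain ⟨η, hη⟩ := test_root hy hf h2 k2
    exact ⟨e', u, 1, w, η, he', k3, isUnit_one, k1, by rw [mul_one]; exact key u s k4,
      Or.inl ⟨rfl, hη⟩⟩
  obtain ⟨η, hη⟩ := test_root hy hf h2 (c := w * F0.eval₂ ρ a) (by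
    rw [← k0, ← test_coe h1, mul_assoc] at k2
    exact k2)
  obtain ⟨u', m1, -, m2⟩ := test_rel (test_isD he' κ) hs hG (by simpa using hM.map κ)
    (hD.mul (k1.map κ)) (a := κ a) (η := η) (by rw [hη, map_mul, hom_eval₂, mul_assoc])
  refine ⟨e', u, u', w, η, he', k3, m1, k1, ?_, Or.inr ⟨a, k0, hη, m2, k5⟩⟩
  obtain ⟨b, hb⟩ := key _ s k4
  obtain ⟨c, hc⟩ := (test_map m2 T.subtype).1
  have m3 : IsUnit (evT G (j x)) := by
    have m4 : IsUnit (algebraMap E (E ⊗[ℤ] A) (j (aeval x Pz))) :=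
      (IsUnit.mk0 _ ((map_ne_zero j).2 hx)).map _
    rw [map_aeval_int, map_aeval_int, aeval_def, algebraMap_int_eq,
      ← RingHom.ext_int ((inc A E).comp (Int.castRingHom A)) (Int.castRingHom _), ← eval₂_map, ← hs.mul,
      eval₂_mul] at m4
    exact isUnit_of_mul_isUnit_left m4
  obtain ⟨g, hg⟩ := (isUnit_pj he.1 m3).exists_right_inv
  have m5 : T.subtype (κ a) = j x := by rw [← k0]; exact h2 a
  have m6 : tm A T.subtype (tm A κ e') = e := by rw [test_tm_tm, c1, c3]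
  rw [m6, m5] at hc
  rw [pj_mul he'.1, map_mul, map_mul, map_pj _ e' (evT G a), map_pj _ _ (tm A κ (evT G a)), m6,
    test_ev, test_ev, m5] at hb
  refine ⟨b * c * g, ?_⟩
  rw [map_mul]
  linear_combination g ^ 2 * c * c * hb + g ^ 2 * (pj e (tm A j γ) *
    (tm A T.subtype (tm A κ (pj e' u)) * pj e (evT G (j x)))) * hc -
    (pj e (tm A j γ) * tm A T.subtype (tm A κ (pj e' u)) * tm A T.subtype u' *
      (pj e (evT G (j x)) * g + 1)) * hg

end Pool.Agent.P.MP_ab3ecb_nt.Inv
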