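import Pool.Agent.P.MP_ab3ecb_nt.Inv.A.TestA

/-! Step TEST of the twist project: the local values of the test function. -/

namespace Pool.Agent.P.MP_ab3ecb_nt.Inv

open Polynomial NumberField IsDedekindDomain TensorProduct Finset
open scoped Classical

set_option linter.unusedSectionVars false

section tame

variable {q : ℕ} {R L k : Type} [CommRing R] [Field L] [Algebra R L] [Field k] {res : R →+* k}

lemma test_q0 (h : Tame q L res) : res q = 0 := (h.ker _).2 dvd_rfl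

lemma test_qne [CharZero L] (h : Tame q L res) : (q : L) ≠ 0 := Nat.cast_ne_zero.2 h.prime.ne_zero

lemma test_nonunit [CharZero L] (h : Tame q L res) {η c : R} (e : η ^ 2 = q * c) : res c = 0 := by
  have h1 : res η = 0 := by
    have := congrArg res e
    rw [map_mul, test_q0 h, zero_mul, map_pow] at this
    exact (pow_eq_zero_iff two_ne_zero).1 this
  obtain ⟨t, rfl⟩ := (h.ker _).1 h1
  have h2 : c = q * t ^ 2 := h.inj (mul_left_cancel₀ (test_qne h) (by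
    have := congrArg (algebraMap R L) e
    simp only [map_mul, map_pow, map_natCast] at this ⊢
    linear_combination -this))
  rw [h2, map_mul, test_q0 h, zero_mul]

lemma test_chk_one : chk (1 : k) = 1 := by simp [chk]

lemma test_chk_sq {a : k} (h : a ≠ 0) : chk a * chk a = 1 := by
  unfold chk
  rw [if_neg h]
  split_ifs <;> rfl

lemma test_chk_eq {a b : k} (ha : a ≠ 0) (hb : b ≠ 0) (h : IsSquare (a * b)) : chk a = chk b := by
  have key : ∀ {a b : k}, a ≠ 0 → IsSquare (a * b) → IsSquare a → IsSquare b := by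
    rintro a b ha ⟨s, hs⟩ ⟨t, rfl⟩
    have ht : t ≠ 0 := left_ne_zero_of_mul ha
    exact ⟨s / t, by field_simp; linear_combination hs⟩
  unfold chk
  rw [if_neg ha, if_neg hb]
  exact if_congr ⟨key ha h, key hb (mul_comm a b ▸ h)⟩ rfl rfl

end tame

variable {K F E : Type} [Field K] [NumberField K] [Field F] [Field E] {ι : K →+* F}
  {j : F →+* E} {v : Pl K} {M : ℕ}

lemma test_cz (v : Pl K) : CharZero (Kv v) :=
  charZero_of_injective_algebraMap (algebraMap K (Kv v)).injective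

attribute [local instance] test_cz

/-- The valuation ring of the base curve below a local point. -/
structure test_Sit (M : ℕ) (P : KPt (j.comp ι) (algebraMap K (Kv v))) (W : ValuationSubring F)
    (ρ : 𝓞 K →+* W) (κ : W →+* P.O) (Ψ : W →+* Ov v) : Prop where
  h1 : ∀ z, (ρ z : F) = ι.comp (algebraMap (𝓞 K) K) z
  h2 : ∀ w, (κ w : E) = j w
  h3 : P.φ.comp κ = (algebraMap (Ov v) (Kv v)).comp Ψ
  h4 : Ψ.comp ρ = algebraMap (𝓞 K) (Ov v)
  h5 : IsUnit ((M : ℤ) : W)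

lemma test_W (P : KPt (j.comp ι) (algebraMap K (Kv v))) : ∃ (W : ValuationSubring F)
    (ρ : 𝓞 K →+* W) (κ : W →+* P.O) (Ψ : W →+* Ov v),
      IsUnit ((M : ℤ) : Ov v) → test_Sit M P W ρ κ Ψ := by
  let W : ValuationSubring F := ValuationSubring.ofSubring
    ((((Ov v).toSubring.comap P.φ).map P.O.subtype).comap j) fun w => by
      by_cases h : j w ∈ P.O
      · by_cases h' : P.φ ⟨j w, h⟩ ∈ Ov v
        · exact Or.inl ⟨⟨j w, h⟩, h', rfl⟩
        · have h0 : P.φ ⟨j w, h⟩ ≠ 0 := fun e => h' (e ▸ (Ov v).zero_mem)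
          obtain ⟨t, ht⟩ := (P.loc.map_nonunit _ (IsUnit.mk0 _ h0)).exists_right_inv
          refine Or.inr ⟨t, ?_, ?_⟩
          · have := congrArg P.φ ht
            rw [map_mul, map_one] at this
            change P.φ t ∈ Ov v
            rw [eq_inv_of_mul_eq_one_right this]
            exact ((Ov v).mem_or_inv_mem _).resolve_left h'
          · rw [map_inv₀]
            exact eq_inv_of_mul_eq_one_right (congrArg Subtype.val ht)
      · obtain ⟨h1, h2⟩ := inv_nonunit P.O h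
        refine Or.inr ⟨⟨_, h1⟩, ?_, (map_inv₀ j w).symm⟩
        have : P.φ ⟨_, h1⟩ = 0 := by
          by_contra h3
          exact h2 (P.loc.map_nonunit _ (IsUnit.mk0 _ h3))
        change P.φ _ ∈ Ov v
        rw [this]
        exact (Ov v).zero_mem
  have m1 : ∀ w : W, ∃ t : P.O, P.φ t ∈ Ov v ∧ (t : E) = j w := fun w => w.2
  have m2 : ∀ w : W, j.comp W.subtype w ∈ P.O := fun w => by
    obtain ⟨t, -, h⟩ := m1 w
    exact (show (t : E) = j.comp W.subtype w from h) ▸ t.2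
  have m3 : ∀ w : W, P.φ.comp ((j.comp W.subtype).codRestrict P.O m2) w ∈ Ov v := fun w => by
    obtain ⟨t, h1, h⟩ := m1 w
    rwa [show t = (j.comp W.subtype).codRestrict P.O m2 w from Subtype.ext h] at h1
  have m4 : ∀ c : K, algebraMap K (Kv v) c ∈ Ov v → ι c ∈ W := fun c hc =>
    ⟨⟨_, P.mem c⟩, (show P.φ _ ∈ Ov v by rwa [P.comm]), rfl⟩
  have m5 : ∀ z, ι.comp (algebraMap (𝓞 K) K) z ∈ W := fun z =>
    m4 _ (algebraMap (𝓞 K) (Ov v) z).2
  refine ⟨W, RingHom.codRestrict _ W m5, RingHom.codRestrict _ P.O m2,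
    RingHom.codRestrict _ (Ov v) m3, fun hM => ⟨fun _ => rfl, fun _ => rfl, rfl,
      RingHom.ext fun z => Subtype.ext (P.comm _), ?_⟩⟩
  obtain ⟨b, hb⟩ := hM.exists_right_inv
  have h1 : ((M : ℤ) : Kv v) * b = 1 := by simpa using congrArg (Ov v).subtype hb
  have h0 : ((M : ℤ) : K) ≠ 0 := fun e => by
    rw [← map_intCast (algebraMap K (Kv v)), e, map_zero, zero_mul] at h1
    exact zero_ne_one h1
  refine IsUnit.of_mul_eq_one ⟨ι ((M : ℤ) : K)⁻¹, m4 _ ?_⟩ (Subtype.ext ?_)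
  · rw [map_inv₀, map_intCast, ← eq_inv_of_mul_eq_one_right h1]
    exact b.2
  · change ((M : ℤ) : F) * ι _ = 1
    rw [← map_intCast ι, ← map_mul, mul_inv_cancel₀ h0, map_one]

variable {q : ℕ} {k : Type} [Field k] {l : 𝓞 K →+* k} {res : Ov v →+* k} {d : K}

lemma test_dec (h : TameV v q l res) (hd : d ≠ 0) {η : Kv v} {c : Ov v}
    (e : η ^ 2 = algebraMap K (Kv v) d * algebraMap (Ov v) (Kv v) c) :
    ∃ (t : Kv v) (u D η0 : Ov v), IsUnit u ∧ η = t * algebraMap (Ov v) (Kv v) η0 ∧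
      algebraMap K (Kv v) d = t ^ 2 * algebraMap (Ov v) (Kv v) D ∧ η0 ^ 2 = D * c ∧
      ((¬ Od v d ∧ D = u) ∨ (Od v d ∧ D = q * u)) := by
  obtain ⟨n, u, h1, h2⟩ := h.dec _ ((map_ne_zero (algebraMap K (Kv v))).2 hd)
  have h3 := h.od d u n h1 h2
  have h4 := test_qne h.toTame
  obtain ⟨t, D, h5, h6, h7⟩ : ∃ (t : Kv v) (D : Ov v), t ≠ 0 ∧
      algebraMap K (Kv v) d = t ^ 2 * algebraMap (Ov v) (Kv v) D ∧
      ((¬ Od v d ∧ D = u) ∨ (Od v d ∧ D = q * u)) := by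
    rcases Int.even_or_odd n with ⟨m, rfl⟩ | ⟨m, rfl⟩
    · exact ⟨q ^ m, u, zpow_ne_zero _ h4, by rw [h2, zpow_add₀ h4]; ring,
        Or.inl ⟨fun h8 => Int.not_odd_iff_even.2 ⟨m, rfl⟩ (h3.1 h8), rfl⟩⟩
    · exact ⟨q ^ m, q * u, zpow_ne_zero _ h4, by
        rw [h2, two_mul, zpow_add₀ h4, zpow_add₀ h4, zpow_one, map_mul, map_natCast]; ring,
        Or.inr ⟨h3.2 ⟨m, rfl⟩, rfl⟩⟩
  have h8 : (η / t) ^ 2 = ((D * c : Ov v) : Kv v) := by
    rw [div_pow, e, h6, mul_assoc, mul_div_cancel_left₀ _ (pow_ne_zero 2 h5), ← map_mul]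
    rfl
  exact ⟨t, u, D, ⟨_, mem_of_sq_mem (Ov v) (h8 ▸ Subtype.property _)⟩, h1,
    (mul_div_cancel₀ η h5).symm, h6, Subtype.ext h8, h7⟩

variable {P : KPt (j.comp ι) (algebraMap K (Kv v))} {W : ValuationSubring F} {ρ : 𝓞 K →+* W}
  {κ : W →+* P.O} {Ψ : W →+* Ov v} {f x : F} {y : E} {Pz : ℤ[X]} {F0 F1 : (𝓞 K)[X]}

lemma test_D {L : Type} [Field L] {σ : K →+* E} {τ : K →+* L} (Q : KPt σ τ) (hd : d ≠ 0) :
    IsUnit (⟨σ d, Q.mem d⟩ : Q.O) :=
  Q.loc.map_nonunit _ (IsUnit.mk0 _ (by rw [Q.comm]; exact (map_ne_zero τ).2 hd))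

lemma test_phi (S : test_Sit M P W ρ κ Ψ) {η : P.O} {c : W}
    (e : η ^ 2 = ⟨j.comp ι d, P.mem d⟩ * κ c) :
    P.φ η ^ 2 = algebraMap K (Kv v) d * algebraMap (Ov v) (Kv v) (Ψ c) := by
  rw [← map_pow, e, map_mul, P.comm]
  exact congrArg _ (DFunLike.congr_fun S.h3 c)

lemma test_even (h : TameV v q l res) (hd : d ≠ 0) (S : test_Sit M P W ρ κ Ψ) {η : P.O} {w : W}
    (hw : IsUnit w) (e : η ^ 2 = ⟨j.comp ι d, P.mem d⟩ * κ w) : ¬ Od v d := by
  obtain ⟨t, u, D, η0, h1, -, -, h2, h3 | ⟨-, rfl⟩⟩ := test_dec h hd (test_phi S e)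
  · exact h3.1
  · exact absurd (test_nonunit h.toTame (h2.trans (mul_assoc _ _ _)))
      ((h.unit _).1 (h1.mul (hw.map Ψ)))

lemma test_a (h : TameV v q l res) (hl : Function.Surjective l) (hd : d ≠ 0)
    (S : test_Sit M P W ρ κ Ψ) (hy : y ≠ 0) (hf : j (ι d) * y ^ 2 = j f)
    (hC : Cert0 (ι.comp (algebraMap (𝓞 K) K)) f x F0 M) (ho : Od v d) :
    ∃ a : 𝓞 K, l (F0.eval a) = 0 ∧
      ∀ b : W, (b : F) = x → ¬ IsUnit (Ψ b - algebraMap (𝓞 K) (Ov v) a) := by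
  rcases hC W S.h5 with ⟨w, h1, h2⟩ | ⟨hx, w, h1, h2⟩
  · obtain ⟨η, hη⟩ := test_root (D := ⟨j.comp ι d, P.mem d⟩) hy hf S.h2 h2
    exact absurd ho (test_even h hd S h1 hη)
  obtain ⟨a, ha⟩ := hl (res (Ψ ⟨x, hx⟩))
  obtain ⟨η, hη⟩ := test_root (D := ⟨j.comp ι d, P.mem d⟩) hy hf S.h2
    (c := w * F0.eval₂ ρ ⟨x, hx⟩) (by
      rw [mul_assoc, ← test_coe S.h1 F0 ⟨x, hx⟩] at h2
      exact h2)
  obtain ⟨t, u, D, η0, h3, -, -, h4, h5 | ⟨-, rfl⟩⟩ := test_dec h hd (test_phi S hη)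
  · exact absurd ho h5.1
  refine ⟨a, ?_, fun b hb => ?_⟩
  · have h6 := test_nonunit h.toTame (h4.trans (mul_assoc _ _ _))
    rw [map_mul Ψ, ← mul_assoc, map_mul, mul_eq_zero, hom_eval₂, hom_eval₂, S.h4, ← ha,
      show res.comp (algebraMap (𝓞 K) (Ov v)) = l from RingHom.ext h.comp, eval₂_at_apply] at h6
    exact h6.resolve_left ((h.unit _).1 (h3.mul (h1.map Ψ)))
  · rw [h.unit, map_sub, h.comp, ha, show b = ⟨x, hx⟩ from Subtype.ext hb, sub_self]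
    exact fun e => e rfl

variable {A : Type} [CommRing A] [Module.Free ℤ A] [Module.Finite ℤ A] [Nontrivial A]
  {i : 𝓞 K →+* A} {G G' : A[X]} {γ : F ⊗[ℤ] A} {V : Set (A × A)}

lemma test_cp {L : Type} [Field L] [CharZero L] {γ γ' α : L ⊗[ℤ] A} (h1 : IsUnit γ)
    (h2 : IsUnit γ') (h3 : IsUnit α) (h : IsSquare (γ * γ')) : cp γ α = cp γ' α := by
  rw [cp, cp, cf_congr _ h1 h3 h2 h3 h ⟨α, rfl⟩]

lemma test_lft {R S : Type} [CommRing R] [CommRing S] (Ψ : R →+* S) (φ : A →+* S) (b : R) :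
    lft φ (tm A Ψ (algebraMap R _ b)) = Ψ b := (lft φ).commutes _

lemma test_V {O R S : Type} [CommRing O] [CommRing R] [CommRing S] {ρ : O →+* R} {i : O →+* A}
    {e u : R ⊗[ℤ] A} (he : IsD ((algebraMap R _).comp ρ) ((inc A R).comp i) e) (Ψ : R →+* S)
    (φ : A →+* S) (r : S →+* k) (h1 : φ.comp i = Ψ.comp ρ) {b : R} {θ n : A}
    (h2 : r (φ θ) = r (Ψ b)) (h3 : ∀ μ : R ⊗[ℤ] A →+* k, (∀ c ∈ dT ρ i, μ c = 0) →
      μ (algebraMap R _ b) = μ (inc A R θ) →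
      μ (inc A R n) ≠ 0 ∧ IsSquare (μ (u * evT G b * inc A R n))) {u1 : S ⊗[ℤ] A}
    (h4 : lft φ u1 = G.eval₂ φ (Ψ b)) :
    r (φ n) ≠ 0 ∧ IsSquare (r (lft φ (u1 * tm A Ψ (pj e u))) * r (φ n)) := by
  have p6 : lft φ (tm A Ψ e) = 1 := by
    have := (test_isD he Ψ).map (lft φ).toRingHom
    rw [show (lft φ).toRingHom.comp ((inc A _).comp i) = (lft φ).toRingHom.comp
      ((algebraMap S _).comp (Ψ.comp ρ)) from RingHom.ext fun c =>
        (lft_inc φ _).trans ((DFunLike.congr_fun h1 c).trans ((lft φ).commutes _).symm)] at this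
    exact this.eq_one
  have p7 : ∀ c, lft φ (tm A Ψ (inc A R c)) = φ c := fun c => by rw [tm_inc, lft_inc]
  obtain ⟨μ, hμ⟩ : ∃ μ : R ⊗[ℤ] A →+* k, ∀ c, μ c = r (lft φ (tm A Ψ c)) :=
    ⟨r.comp ((lft φ).toRingHom.comp (tm A Ψ)), fun _ => rfl⟩
  obtain ⟨p8, p9⟩ := h3 μ (fun c hc => by
    have := congrArg (fun c => lft φ (tm A Ψ c)) (he.mem_iff.1 hc)
    simp only [map_mul, p6, one_mul, map_zero] at this
    rw [hμ, this, map_zero]) (by rw [hμ, hμ, test_lft, p7, h2])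
  rw [hμ, p7] at p8
  rw [hμ, map_mul (tm A Ψ), map_mul (tm A Ψ), map_mul (lft φ), map_mul (lft φ), p7, test_ev,
    lft_eval, mul_comm (lft φ _), map_mul] at p9
  have p10 : lft φ (tm A Ψ (pj e u)) = lft φ (tm A Ψ u) := by
    simp only [pj, map_add, map_mul, map_sub, map_one, p6, one_mul, sub_self, add_zero]
  exact ⟨p8, by rwa [map_mul (lft φ), h4, p10]⟩

lemma test_loc (hX : S_EXE) (h : TameV v q l res) (hd : d ≠ 0) (S : test_Sit M P W ρ κ Ψ)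
    (hy : y ≠ 0) (hf : j (ι d) * y ^ 2 = j f) (hP : Pol Pz F0 F1 M) (hx : aeval x Pz ≠ 0)
    (hs : Spl Pz M G (G' * F1.map i)) (hG : G * G' = F0.map i)
    (hC : Cert (ι.comp (algebraMap (𝓞 K) K)) f x F0 F1 M i G γ V) {e : E ⊗[ℤ] A}
    (he : IsD ((algebraMap E _).comp (j.comp (ι.comp (algebraMap (𝓞 K) K))))
      ((inc A E).comp i) e) {a : 𝓞 K}
    (ha : Od v d → ∀ b : W, (b : F) = x → ¬ IsUnit (Ψ b - algebraMap (𝓞 K) (Ov v) a)) :
    ∃ (U : P.O ⊗[ℤ] A) (e1 e' g : Ov v ⊗[ℤ] A), IsUnit U ∧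
      IsSquare (pj e (tm A j γ) * tm A P.O.subtype U) ∧
      IsD ((algebraMap (Ov v) _).comp (algebraMap (𝓞 K) (Ov v))) ((inc A (Ov v)).comp i) e1 ∧
      e' * e' = e' ∧ e' * e1 = e' ∧ IsUnit g ∧ pj e1 g = g ∧
      (∀ α, IsUnit α → cp (tm A P.φ U) α =
        cp (tm A (algebraMap (Ov v) (Kv v)) (pj e' q * g)) α) ∧
      (¬ Od v d → e' = 0) ∧ (Od v d → IsE (tm A res e') (evT (G' * F1.map i) (l a)) ∧
        ∀ φ : A →+* Ov v, φ.comp i = algebraMap (𝓞 K) (Ov v) →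
          (G' * F1.map i).eval₂ (res.comp φ) (l a) = 0 → ∀ z ∈ V, res (φ z.1) = l a →
          lft φ e' = 0 ∧ res (φ z.2) ≠ 0 ∧ chk (res (lft φ g)) = chk (res (φ z.2))) := by
  obtain ⟨e0, u, u', w, η, k1, k2, k3, k4, k5, k6⟩ := test_gen (D := ⟨j.comp ι d, P.mem d⟩) hP hx
    hs hG hC hy (test_D P hd) hf he S.h1 S.h2 S.h5
  have m1 := test_isD k1 Ψ
  rw [S.h4] at m1
  have m2 : ∀ z, tm A P.φ (tm A κ z) = tm A (algebraMap (Ov v) (Kv v)) (tm A Ψ z) := fun z => by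
    rw [test_tm_tm, test_tm_tm, S.h3]
  have m3 := isUnit_pj k1.1 k2
  have m4 : pj (tm A Ψ e0) (tm A Ψ (pj e0 u)) = tm A Ψ (pj e0 u) := by
    rw [← map_pj, test_pj_pj k1.1]
  have m0 : pj (0 : Ov v ⊗[ℤ] A) q = 1 := by simp [pj]
  have hM : IsUnit ((M : ℤ) : Ov v) := by simpa using S.h5.map Ψ
  rcases k6 with ⟨rfl, k6⟩ | ⟨b, k6, k7, k8, k9⟩
  · exact ⟨_, _, 0, _, (m3.map _).mul k3, k5, m1, mul_zero _, zero_mul _, m3.map _, m4,
      fun α _ => by rw [mul_one, m2, m0, one_mul], fun _ => rfl,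
      fun ho => absurd ho (test_even h hd S k4 k6)⟩
  obtain ⟨t, u0, D, η0, n1, n2, n3, n4, n5⟩ := test_dec h hd (test_phi S k7)
  rw [map_mul, hom_eval₂, S.h4, ← mul_assoc] at n4
  have m5 : ∀ z, P.φ (κ z) = algebraMap (Ov v) (Kv v) (Ψ z) := DFunLike.congr_fun S.h3
  have key : ∀ u1, IsUnit (tm A (algebraMap (Ov v) (Kv v)) u1) →
      RelD (tm A Ψ e0) u1 G G' (Ψ b) (D * Ψ w) η0 → ∀ α, IsUnit α →
      cp (tm A P.φ (tm A κ (pj e0 u) * u')) α =
        cp (tm A (algebraMap (Ov v) (Kv v)) (u1 * tm A Ψ (pj e0 u))) α := fun u1 r1 r2 α hα => by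
    have r3 := test_scale (test_map r2 (algebraMap (Ov v) (Kv v))) t
    have r4 := test_map k8 P.φ
    rw [map_mul, ← mul_assoc, ← n3, ← n2] at r3
    rw [m2, map_mul, P.comm, m5, m5] at r4
    have r5 := test_isD m1 (algebraMap (Ov v) (Kv v))
    obtain ⟨s, r6⟩ := rel_unique (test_xy r5 hG (by
      rw [test_phi S k7, map_mul, map_mul, hom_eval₂, hom_eval₂, S.h4, mul_assoc]))
      (test_cop r5.1 hs (by simpa using hM.map (algebraMap (Ov v) (Kv v)))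
        (IsUnit.mk0 _ (mul_ne_zero ((_root_.map_ne_zero _).2 hd) ((k4.map Ψ).map _).ne_zero))) r4 r3
    refine test_cp (((m3.map _).mul k3).map _) (by rw [map_mul]; exact r1.mul ((m3.map _).map _))
      hα ⟨s * tm A (algebraMap (Ov v) (Kv v)) (tm A Ψ (pj e0 u)), ?_⟩
    rw [map_mul, map_mul, m2]
    linear_combination tm A (algebraMap (Ov v) (Kv v)) (tm A Ψ (pj e0 u)) ^ 2 * r6
  rcases n5 with ⟨n5, rfl⟩ | ⟨n5, rfl⟩
  · obtain ⟨u1, r1, r2, r3⟩ := test_rel m1 hs hG hM (n1.mul (k4.map Ψ)) n4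
    exact ⟨_, _, 0, u1 * _, (m3.map _).mul k3, k5, m1, mul_zero _, zero_mul _, r1.mul (m3.map _),
      by rw [pj_mul m1.1, r2, m4], fun α hα => by rw [key u1 (r1.map _) r3 α hα, m0, one_mul],
      fun _ => rfl, fun ho => absurd ho n5⟩
  rw [mul_assoc (q : Ov v) u0, ← mul_assoc (q : Ov v) u0, mul_assoc (q : Ov v) u0] at n4
  obtain ⟨e', u1, r1, r2, r3, r4, r5, r6, r7⟩ := hX q (Ov v) (Kv v) k res h.toTame (𝓞 K) A _ i Pz F0
    F1 M G G' hP hM hs hG _ m1 (Ψ b) η0 _ (n1.mul (k4.map Ψ)) n4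
  have r8 : res (Ψ b) = l a := by
    have := ha n5 b k6
    rwa [h.unit, not_not, map_sub, h.comp, sub_eq_zero] at this
  rw [r8] at r5
  refine ⟨_, _, e', u1 * _, (m3.map _).mul k3, k5, m1, r1, r3, r2.mul (m3.map _),
    by rw [pj_mul m1.1, r4, m4], fun α hα => ?_, fun ho => absurd n5 ho,
    fun _ => ⟨r5, fun φ p1 p2 z hz p3 => ?_⟩⟩
  · rw [← mul_assoc]
    refine key _ ?_ (by rwa [mul_assoc]) α hα
    rw [map_mul, map_pj, map_natCast, ← map_natCast (algebraMap (Kv v) _)]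
    exact (isUnit_pj (by rw [← map_mul, r1])
      ((IsUnit.mk0 _ (test_qne h.toTame)).map _)).mul (r2.map _)
  obtain ⟨p4, p5⟩ := r7 φ p1 (by rw [hom_eval₂, r8, p2])
  obtain ⟨p8, p9⟩ := test_V k1 Ψ φ res (p1.trans S.h4.symm) (p3.trans r8.symm) (k9 z hz k) p5
  exact ⟨p4, p8, test_chk_eq ((h.unit _).1 ((r2.mul (m3.map _)).map _)) p8 p9⟩

end Pool.Agent.P.MP_ab3ecb_nt.Inv
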